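import Pool.Agent.EUP.Struct

/-!
BdNum: numerical estimate of the bound.

`k = 2 log₂ (40 L) + 2`, `2^(2k) ≤ (4 (40 L)^2)^2 = 16 (40 L)^4`.  So with `x = 40 L`, `m = 2 k`: `F0 ≤ 16 x^10`, `d0 ≤ 256 m x^14 + m ≤ 257 m x^14`,
`K1 ≤ C m^2 x^28 m`, `K2 ≤ C m^2 x^28`, `bd ≤ C m^3 x^42`, and `m = O(log L)`.
-/

namespace Pool.Agent.EUP

private theorem num_log' (K : ℕ) : ∀ L ≥ 2 ^ (8 * K), K * (2 * Nat.log 2 L + 2) ≤ L := by
  intro L hL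
  have hL0 : L ≠ 0 := by
    have : 0 < 2 ^ (8 * K) := by positivity
    omega
  have ha : 8 * K ≤ Nat.log 2 L := (Nat.le_log_iff_pow_le (by norm_num) hL0).2 hL
  have hpow : 2 ^ Nat.log 2 L ≤ L := Nat.pow_log_le_self 2 hL0
  refine le_trans ?_ hpow
  generalize Nat.log 2 L = a at ha
  obtain ⟨b, hb⟩ : ∃ b, b = a / 2 := ⟨_, rfl⟩
  have h1 : 2 * b ≤ a := by omega
  have h2 : a ≤ 2 * b + 1 := by omega
  have h3 : 4 * K ≤ b := by omega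
  have h4 : b < 2 ^ b := Nat.lt_two_pow_self
  calc K * (2 * a + 2) ≤ K * (4 * (b + 1)) := Nat.mul_le_mul_left _ (by omega)
    _ = (4 * K) * (b + 1) := by ring
    _ ≤ 2 ^ b * 2 ^ b := Nat.mul_le_mul (by omega) h4
    _ = 2 ^ (2 * b) := by rw [← pow_add]; congr 1; ring
    _ ≤ 2 ^ a := Nat.pow_le_pow_right (by norm_num) h1

private theorem bd_aux (L k x D : ℕ) (hx : x = 40 * L) (hx1 : 1 ≤ x) (hk1 : 1 ≤ k)
    (hp : 2 ^ (2 * k) ≤ 16 * x ^ 4) (hD : D = 514 * k * x ^ 14) : bd L k ≤ 23 * D ^ 3 := by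
  have hx14 : 1 ≤ x ^ 14 := Nat.one_le_pow _ _ hx1
  have hx10 : 1 ≤ x ^ 10 := Nat.one_le_pow _ _ hx1
  have hx4 : 1 ≤ x ^ 4 := Nat.one_le_pow _ _ hx1
  have hF : F0 L k ≤ 16 * x ^ 10 := by
    unfold F0
    rw [← hx]
    calc x ^ 2 * ((x ^ 2) ^ 2 * 2 ^ (2 * k)) ≤ x ^ 2 * ((x ^ 2) ^ 2 * (16 * x ^ 4)) := by gcongr
      _ = 16 * x ^ 10 := by ring
  have hkx : k ≤ k * x ^ 14 := Nat.le_mul_of_pos_right _ (by omega)
  have hd : d0 L k ≤ D := by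
    unfold d0
    calc F0 L k * ((2 * k) * 2 ^ (2 * k)) + 2 * k
        ≤ (16 * x ^ 10) * ((2 * k) * (16 * x ^ 4)) + 2 * (k * x ^ 14) := by gcongr
      _ = 514 * k * x ^ 14 := by ring
      _ = D := hD.symm
  have hkD : 514 * k ≤ D := by
    rw [hD]; exact Nat.le_mul_of_pos_right _ (by omega)
  have hD1 : 1 ≤ D := by omega
  have hDD : D ≤ D ^ 2 := by rw [sq]; exact Nat.le_mul_of_pos_right _ (by omega)
  have hDDD : D ^ 2 ≤ D ^ 3 := Nat.pow_le_pow_right hD1 (by norm_num)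
  have h1 : K1 L k + 1 ≤ 11 * D ^ 2 := by
    unfold K1
    have hkD' : 2 * (2 * k) * D ≤ D ^ 2 := by
      rw [sq]; exact Nat.mul_le_mul_right _ (by omega)
    calc 2 * d0 L k ^ 2 + d0 L k + 1 + 2 * k + 2 * (2 * k) * d0 L k + 1
        ≤ 2 * D ^ 2 + D + 1 + 2 * k + 2 * (2 * k) * D + 1 := by gcongr
      _ ≤ 11 * D ^ 2 := by omega
  have h2 : K2 L k + 1 ≤ 6 * D ^ 2 := by
    unfold K2
    have e1 : 2 * D * ((2 * k) * 2 ^ (2 * k)) + 1 ≤ 65 * (k * x ^ 4 * D) := by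
      have : 1 ≤ k * x ^ 4 * D := Nat.one_le_iff_ne_zero.2 (by positivity)
      calc 2 * D * ((2 * k) * 2 ^ (2 * k)) + 1 ≤ 2 * D * ((2 * k) * (16 * x ^ 4)) + k * x ^ 4 * D := by
            gcongr
        _ = 65 * (k * x ^ 4 * D) := by ring
    have e2 : 1040 * (k * x ^ 14 * D) ≤ 3 * D ^ 2 := by
      have : 1040 * (k * x ^ 14) ≤ 3 * D := by
        rw [hD, mul_assoc 514]; omega
      calc 1040 * (k * x ^ 14 * D) = 1040 * (k * x ^ 14) * D := by ring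
        _ ≤ 3 * D * D := Nat.mul_le_mul_right _ this
        _ = 3 * D ^ 2 := by ring
    calc 2 * k + F0 L k * (2 * d0 L k * ((2 * k) * 2 ^ (2 * k)) + 1) + 1
        ≤ 2 * k + (16 * x ^ 10) * (2 * D * ((2 * k) * 2 ^ (2 * k)) + 1) + 1 := by gcongr
      _ ≤ 2 * k + (16 * x ^ 10) * (65 * (k * x ^ 4 * D)) + 1 := by gcongr
      _ = 2 * k + 1040 * (k * x ^ 14 * D) + 1 := by ring
      _ ≤ 6 * D ^ 2 := by omega
  unfold bd
  calc K1 L k + 1 + 2 * d0 L k * (K2 L k + 1) ≤ 11 * D ^ 2 + 2 * D * (6 * D ^ 2) := by gcongr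
    _ = 11 * D ^ 2 + 12 * D ^ 3 := by ring
    _ ≤ 23 * D ^ 3 := by omega

theorem bd_le : ∃ L₀ : ℕ, ∀ L ≥ L₀, bd L (2 * Nat.log 2 (40 * L) + 2) ≤ L ^ 45 := by
  obtain ⟨K, hK⟩ : ∃ K, K = 3 * 514 * 40 ^ 14 := ⟨_, rfl⟩
  refine ⟨2 ^ (8 * (40 * K)), ?_⟩
  intro L hL
  have hLpos : 1 ≤ L := by
    have : 0 < 2 ^ (8 * (40 * K)) := by positivity
    omega
  have hKk := num_log' (40 * K) (40 * L) (by omega)
  have hlogp : 2 ^ Nat.log 2 (40 * L) ≤ 40 * L := Nat.pow_log_le_self 2 (by omega)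
  obtain ⟨k, hk⟩ : ∃ k, k = 2 * Nat.log 2 (40 * L) + 2 := ⟨_, rfl⟩
  have hp : 2 ^ (2 * k) ≤ 16 * (40 * L) ^ 4 := by
    have e : 2 ^ (2 * k) = 16 * (2 ^ Nat.log 2 (40 * L)) ^ 4 := by
      rw [← pow_mul, show (16 : ℕ) = 2 ^ 4 by norm_num, ← pow_add]
      congr 1
      omega
    rw [e]
    gcongr
  rw [← hk] at hKk ⊢
  have hKk' : K * k ≤ L := by
    rw [mul_assoc] at hKk
    generalize K * k = y at hKk ⊢
    omega
  have h := bd_aux L k (40 * L) (514 * k * (40 * L) ^ 14) rfl (by omega) (by omega) hp rfl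
  refine h.trans ?_
  calc 23 * (514 * k * (40 * L) ^ 14) ^ 3 ≤ 27 * (514 * k * (40 * L) ^ 14) ^ 3 := by gcongr; norm_num
    _ = (3 * 514 * 40 ^ 14 * k) ^ 3 * L ^ 42 := by ring
    _ = (K * k) ^ 3 * L ^ 42 := by rw [← hK]
    _ ≤ L ^ 3 * L ^ 42 := by gcongr
    _ = L ^ 45 := by ring

end Pool.Agent.EUP
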