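import Pool.Agent.EUP.Defs

/-!
Branch: the formal branch of a curve at a point where it is a graph over the `u`-axis.

PROOF.  Existence of `φ ∈ ℂ⟦t⟧` with `P(u₀ + t, φ) = 0`, `φ(0) = v₀`: Hensel's lemma in the complete ring `ℂ⟦t⟧` (Mathlib has
`IsAdicComplete (.span {X}) (PowerSeries R)` and `IsAdicComplete.henselianRing`), applied to the polynomial
`P.map (C u₀ + t) ∈ ℂ⟦t⟧[X]`, whose value at `C v₀` is divisible by `t` and whose derivative there is a unit; Hensel as stated
for monic polynomials is not enough if `P` is not monic in `v`: use Newton's recursion coefficient by coefficient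
instead (choose the `n`-th coefficient of `φ` such that the `n`-th coefficient of `P(u₀ + t, φ)` vanishes:
`P(u₀+t, φ + c t^n) = P(u₀+t, φ) + c t^n ∂_v P(u₀+t, φ) mod t^(n+1)`), or any other route.
`θ = eval₂RingHom (ring hom ℂ[u] → ℂ⟦t⟧, u ↦ C u₀ + X) φ`.
Kernel: `P ∣ g → θ g = 0` clear.  Conversely let `θ g = 0` and suppose `P ∤ g`.  `P.natDegree ≥ 1` (otherwise `∂_v P = 0`).  `P` and `g`
are coprime over the fraction field of `ℂ[u]` (Gauss lemma, as in `CommonZeros`), so there are `α, β ∈ B` and a nonzero `r ∈ ℂ[u]`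
with `α P + β g = C r` (clear denominators; or `exists_mul_add_mul_eq_C_resultant`).  Apply `θ`: `r(u₀ + t) = 0` in `ℂ⟦t⟧`, so
`r = 0` (the substitution `u ↦ u₀ + t` is injective on `ℂ[u]`), contradiction.
-/

namespace Pool.Agent.EUP

open Polynomial

/-- Newton iteration in `ℂ⟦X⟧`. -/
private theorem newton_root (F : Polynomial (PowerSeries ℂ)) (v₀ : ℂ)
    (h0 : PowerSeries.constantCoeff (F.eval (PowerSeries.C v₀)) = 0)
    (h1 : PowerSeries.constantCoeff ((derivative F).eval (PowerSeries.C v₀)) ≠ 0) :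
    ∃ φ : PowerSeries ℂ, PowerSeries.constantCoeff φ = v₀ ∧ F.eval φ = 0 := by
  set d : ℂ := PowerSeries.constantCoeff ((derivative F).eval (PowerSeries.C v₀)) with hd
  let s : ℕ → PowerSeries ℂ := fun n =>
    Nat.rec (PowerSeries.C v₀) (fun _ y => y - F.eval y * PowerSeries.C d⁻¹) n
  have s0 : s 0 = PowerSeries.C v₀ := rfl
  have s1 : ∀ n, s (n + 1) = s n - F.eval (s n) * PowerSeries.C d⁻¹ := fun n => rfl
  have hX : ∀ f : PowerSeries ℂ, PowerSeries.constantCoeff f = 0 ↔ PowerSeries.X ∣ f :=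
    fun f => PowerSeries.X_dvd_iff.symm
  have key : ∀ n, (PowerSeries.X : PowerSeries ℂ) ^ (n + 1) ∣ F.eval (s n) ∧
      (PowerSeries.X : PowerSeries ℂ) ∣ s n - PowerSeries.C v₀ := by
    intro n
    induction n with
    | zero =>
      refine ⟨?_, ?_⟩
      · rw [s0, zero_add, pow_one, ← hX]
        exact h0
      · rw [s0, sub_self]
        exact dvd_zero _
    | succ n ih =>
      obtain ⟨ih1, ih2⟩ := ih
      have hXd : (PowerSeries.X : PowerSeries ℂ) ∣ F.eval (s n) :=
        (dvd_pow_self _ (by omega)).trans ih1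
      refine ⟨?_, ?_⟩
      · obtain ⟨k, hk⟩ := (F.binomExpansion (s n) (-(F.eval (s n) * PowerSeries.C d⁻¹)))
        have hs : s (n + 1) = s n + -(F.eval (s n) * PowerSeries.C d⁻¹) := by
          rw [s1, sub_eq_add_neg]
        rw [hs, hk]
        have hder : (PowerSeries.X : PowerSeries ℂ) ∣
            1 - (derivative F).eval (s n) * PowerSeries.C d⁻¹ := by
          have h2 : (PowerSeries.X : PowerSeries ℂ) ∣
              (derivative F).eval (s n) - (derivative F).eval (PowerSeries.C v₀) :=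
            ih2.trans (sub_dvd_eval_sub _ _ _)
          rw [← hX] at h2 ⊢
          rw [map_sub] at h2
          rw [map_sub, map_one, map_mul, PowerSeries.constantCoeff_C, sub_eq_zero.1 h2, ← hd,
            mul_inv_cancel₀ h1, sub_self]
        have hA : (PowerSeries.X : PowerSeries ℂ) ^ (n + 1 + 1) ∣
            F.eval (s n) * (1 - (derivative F).eval (s n) * PowerSeries.C d⁻¹) := by
          rw [pow_succ]
          exact mul_dvd_mul ih1 hder
        have hB : (PowerSeries.X : PowerSeries ℂ) ^ (n + 1 + 1) ∣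
            k * (-(F.eval (s n) * PowerSeries.C d⁻¹)) ^ 2 := by
          have h3 : (PowerSeries.X : PowerSeries ℂ) ^ (n + 1 + 1) ∣
              F.eval (s n) * F.eval (s n) := by
            rw [pow_succ]
            exact mul_dvd_mul ih1 hXd
          have h4 : k * (-(F.eval (s n) * PowerSeries.C d⁻¹)) ^ 2 =
              F.eval (s n) * F.eval (s n) * (k * PowerSeries.C d⁻¹ ^ 2) := by ring
          rw [h4]
          exact Dvd.dvd.mul_right h3 _
        have h5 : F.eval (s n) + (derivative F).eval (s n) * -(F.eval (s n) * PowerSeries.C d⁻¹) +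
            k * (-(F.eval (s n) * PowerSeries.C d⁻¹)) ^ 2 =
            F.eval (s n) * (1 - (derivative F).eval (s n) * PowerSeries.C d⁻¹) +
            k * (-(F.eval (s n) * PowerSeries.C d⁻¹)) ^ 2 := by ring
        rw [h5]
        exact dvd_add hA hB
      · rw [s1]
        have h6 : s n - F.eval (s n) * PowerSeries.C d⁻¹ - PowerSeries.C v₀ =
            (s n - PowerSeries.C v₀) - F.eval (s n) * PowerSeries.C d⁻¹ := by ring
        rw [h6]
        exact dvd_sub ih2 (Dvd.dvd.mul_right hXd _)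
  have hstep : ∀ n, (PowerSeries.X : PowerSeries ℂ) ^ (n + 1) ∣ s (n + 1) - s n := by
    intro n
    have h7 : s (n + 1) - s n = -(F.eval (s n) * PowerSeries.C d⁻¹) := by rw [s1]; ring
    rw [h7]
    exact (Dvd.dvd.mul_right (key n).1 _).neg_right
  have hstep' : ∀ k n, (PowerSeries.X : PowerSeries ℂ) ^ (k + 1) ∣ s (k + n) - s k := by
    intro k n
    induction n with
    | zero => rw [add_zero, sub_self]; exact dvd_zero _
    | succ n ih =>
      have h8 : s (k + (n + 1)) - s k = (s (k + n + 1) - s (k + n)) + (s (k + n) - s k) := by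
        rw [← add_assoc]; ring
      rw [h8]
      exact dvd_add ((pow_dvd_pow _ (by omega)).trans (hstep (k + n))) ih
  let φ : PowerSeries ℂ := PowerSeries.mk fun n => PowerSeries.coeff n (s n)
  have hφ : ∀ n, (PowerSeries.X : PowerSeries ℂ) ^ (n + 1) ∣ φ - s n := by
    intro n
    rw [PowerSeries.X_pow_dvd_iff]
    intro k hk
    rw [map_sub, PowerSeries.coeff_mk]
    obtain ⟨j, rfl⟩ : ∃ j, n = k + j := ⟨n - k, by omega⟩
    have h9 := (PowerSeries.X_pow_dvd_iff.1 (hstep' k j)) k (Nat.lt_succ_self k)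
    rw [map_sub, sub_eq_zero] at h9
    rw [h9, sub_self]
  refine ⟨φ, ?_, ?_⟩
  · have h10 := hφ 0
    rw [zero_add, pow_one, ← hX, s0, map_sub, PowerSeries.constantCoeff_C, sub_eq_zero] at h10
    exact h10
  · ext n
    have h11 : (PowerSeries.X : PowerSeries ℂ) ^ (n + 1) ∣ F.eval φ := by
      have h12 : (PowerSeries.X : PowerSeries ℂ) ^ (n + 1) ∣ F.eval φ - F.eval (s n) :=
        (hφ n).trans (sub_dvd_eval_sub _ _ _)
      have h13 := dvd_add h12 (key n).1
      rwa [sub_add_cancel] at h13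
    rw [map_zero]
    exact (PowerSeries.X_pow_dvd_iff.1 h11) n (Nat.lt_succ_self n)

/-- The substitution `u ↦ u₀ + t`. -/
private noncomputable def sig (u₀ : ℂ) : Polynomial ℂ →+* PowerSeries ℂ :=
  eval₂RingHom (PowerSeries.C : ℂ →+* PowerSeries ℂ) (PowerSeries.C u₀ + PowerSeries.X)

private theorem sig_eq (u₀ : ℂ) (a : Polynomial ℂ) :
    sig u₀ a = ((taylor u₀ a : Polynomial ℂ) : PowerSeries ℂ) := by
  have h : sig u₀ = (Polynomial.coeToPowerSeries.ringHom (R := ℂ)).comp
      (taylorAlgHom u₀ : Polynomial ℂ →+* Polynomial ℂ) := by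
    apply Polynomial.ringHom_ext
    · intro c
      simp [sig]
    · simp [sig, add_comm]
  rw [h]
  rfl

private theorem sig_inj (u₀ : ℂ) : Function.Injective (sig u₀) := by
  rw [injective_iff_map_eq_zero]
  intro a ha
  rw [sig_eq] at ha
  have h1 : (taylor u₀ a : Polynomial ℂ) = 0 := Polynomial.coe_eq_zero_iff.1 ha
  exact taylor_injective u₀ (by rw [h1, map_zero])

private theorem cc_sig (u₀ : ℂ) :
    (PowerSeries.constantCoeff (R := ℂ)).comp (sig u₀) = evalRingHom u₀ := by
  apply Polynomial.ringHom_ext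
  · intro c
    simp [sig]
  · simp [sig]

private theorem cc_eval (u₀ v₀ : ℂ) (Q : B) :
    PowerSeries.constantCoeff ((Q.map (sig u₀)).eval (PowerSeries.C v₀)) = Q.evalEval u₀ v₀ := by
  rw [eval_map, hom_eval₂, cc_sig, PowerSeries.constantCoeff_C, eval₂_evalRingHom]

private theorem kernel_gen (K L : Type) [Field K] [Algebra (Polynomial ℂ) K]
    [IsFractionRing (Polynomial ℂ) K] [Field L] [Algebra (PowerSeries ℂ) L]
    [IsFractionRing (PowerSeries ℂ) L] {P : B} {u₀ : ℂ} {φ : PowerSeries ℂ}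
    (hprim : P.IsPrimitive) (hP : Irreducible P) (hφ : P.eval₂ (sig u₀) φ = 0) (g : B)
    (hg : g.eval₂ (sig u₀) φ = 0) : P ∣ g := by
  rw [hprim.dvd_iff_fraction_map_dvd_fraction_map K]
  by_contra hnd
  have hirr : Irreducible (P.map (algebraMap (Polynomial ℂ) K)) :=
    (hprim.irreducible_iff_irreducible_map_fraction_map).1 hP
  obtain ⟨a, b, hab⟩ := (hirr.coprime_iff_not_dvd).2 hnd
  have hinj : Function.Injective ((algebraMap (PowerSeries ℂ) L).comp (sig u₀)) := by
    rw [RingHom.coe_comp]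
    exact (IsFractionRing.injective _ _).comp (sig_inj u₀)
  let ψ : K →+* L := IsFractionRing.lift hinj
  have hψ : ψ.comp (algebraMap (Polynomial ℂ) K) =
      (algebraMap (PowerSeries ℂ) L).comp (sig u₀) :=
    RingHom.ext fun x => IsFractionRing.lift_algebraMap hinj x
  have hev : ∀ Q : B, Q.eval₂ (sig u₀) φ = 0 →
      (Q.map (algebraMap (Polynomial ℂ) K)).eval₂ ψ (algebraMap (PowerSeries ℂ) L φ) = 0 := by
    intro Q hQ
    rw [eval₂_map, hψ, ← hom_eval₂, hQ, map_zero]
  have h2 := congrArg (eval₂RingHom ψ (algebraMap (PowerSeries ℂ) L φ)) hab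
  rw [map_add, map_mul, map_mul, coe_eval₂RingHom, hev P hφ, hev g hg, mul_zero, mul_zero,
    add_zero, eval₂_one] at h2
  exact zero_ne_one h2

private theorem kernel_aux {P : B} {u₀ : ℂ} {φ : PowerSeries ℂ} (hprim : P.IsPrimitive)
    (hP : Irreducible P) (hφ : P.eval₂ (sig u₀) φ = 0) (g : B)
    (hg : g.eval₂ (sig u₀) φ = 0) : P ∣ g :=
  kernel_gen (FractionRing (Polynomial ℂ)) (FractionRing (PowerSeries ℂ)) hprim hP hφ g hg

theorem branch {P : B} (hP : Irreducible P) {u₀ v₀ : ℂ} (h0 : P.evalEval u₀ v₀ = 0)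
    (h1 : (derivative P).evalEval u₀ v₀ ≠ 0) :
    ∃ θ : B →+* PowerSeries ℂ, (∀ a : ℂ, θ (C (C a)) = PowerSeries.C a) ∧
      θ (C X) = PowerSeries.C u₀ + PowerSeries.X ∧ PowerSeries.constantCoeff (θ X) = v₀ ∧
      ∀ g : B, θ g = 0 ↔ P ∣ g := by
  obtain ⟨φ, hφ0, hφ⟩ := newton_root (P.map (sig u₀)) v₀ (by rw [cc_eval]; exact h0)
    (by rw [derivative_map, cc_eval]; exact h1)
  rw [eval_map] at hφ
  have hdeg : P.natDegree ≠ 0 := by
    intro h
    apply h1
    rw [derivative_of_natDegree_zero h]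
    simp
  have hprim : P.IsPrimitive := hP.isPrimitive hdeg
  refine ⟨eval₂RingHom (sig u₀) φ, ?_, ?_, ?_, ?_⟩
  · intro a
    simp [sig]
  · simp [sig]
  · simpa using hφ0
  · intro g
    constructor
    · intro hg
      exact kernel_aux hprim hP hφ g hg
    · rintro ⟨q, rfl⟩
      rw [map_mul, coe_eval₂RingHom, hφ, zero_mul]

end Pool.Agent.EUP
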