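import Pool.Agent.EUP.DegLem

/-!
CommonZeros: two curves without common component.

PROOF.  If `P.natDegree = 0` then `P = C p`, `p ∈ ℂ[u]` irreducible, hence of degree one: at most one `u`.
Otherwise let `r = resultant P Q (P.natDegree) (Q.natDegree) ∈ ℂ[u]`.  (If `Q.natDegree = 0`, `Q = C q`, `q ≠ 0`, the values `u` are
among the at most `e` roots of `q`; this case may be included: the resultant is a power of `q`.)
`r ≠ 0`: over the field `K = RatFunc ℂ` (or `FractionRing ℂ[X]`), `P` stays irreducible (Gauss,
`Polynomial.IsPrimitive.irreducible_iff_irreducible_map_fraction_map`; `P` irreducible of positive degree is primitive)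
and does not divide `Q` (`IsPrimitive.dvd_of_fraction_map_dvd_fraction_map`), so `P`, `Q` are coprime over `K` and the resultant
is not zero (`Polynomial.resultant_eq_zero_iff`, `resultant_map_map`).
`natDegree r ≤ 2 d e`: `r` is a determinant of size `P.natDegree + Q.natDegree` with `Q.natDegree ≤ e` rows consisting of
coefficients of `P` (of degree `≤ d` in `u`) and `P.natDegree ≤ d` rows of coefficients of `Q` (degree `≤ e`).
If `P(u, v) = Q(u, v) = 0` then `r(u) = 0`: `exists_mul_add_mul_eq_C_resultant` (`P * f + Q * g = C r`).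
(The coefficients of `P` have degree `≤ (swap P).natDegree`.)
-/

namespace Pool.Agent.EUP

open Polynomial

private theorem coeff_swap (P : B) (i j : ℕ) :
    ((Bivariate.swap P).coeff j).coeff i = (P.coeff i).coeff j := by
  induction P using Polynomial.induction_on' with
  | add p q hp hq => simp only [map_add, coeff_add, hp, hq]
  | monomial n f =>
    rw [Bivariate.swap_monomial, coeff_mul_C, coeff_map, coeff_C_mul, coeff_X_pow, coeff_monomial]
    by_cases h : i = n
    · subst h; simp
    · rw [if_neg h, if_neg (fun h' => h h'.symm)]; simp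

theorem coeff_natDegree_le (P : B) (i : ℕ) :
    (P.coeff i).natDegree ≤ (Bivariate.swap P).natDegree := by
  rw [natDegree_le_iff_coeff_eq_zero]
  intro j hj
  rw [← coeff_swap, coeff_eq_zero_of_natDegree_lt hj, coeff_zero]

private theorem evalEval_of_resultant {P Q : B} (hP : P.natDegree ≠ 0) (u v : ℂ)
    (h1 : P.evalEval u v = 0) (h2 : Q.evalEval u v = 0) : (resultant P Q).eval u = 0 := by
  obtain ⟨p, q, -, -, e⟩ := exists_mul_add_mul_eq_C_resultant P Q le_rfl le_rfl (Or.inl hP)
  have h := congrArg (fun F : B => F.evalEval u v) e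
  simp only [evalEval_add, evalEval_mul, h1, h2, zero_mul, add_zero] at h
  rw [evalEval_C] at h
  exact h.symm

private theorem cop_field {K : Type*} [Field K] {p q : K[X]} (hp : Irreducible p) (h : ¬ p ∣ q) :
    IsCoprime p q := (EuclideanDomain.isCoprime_of_dvd (fun h0 => hp.ne_zero h0.1) (by
      intro z hz hz0 hzp hzq
      rcases hp.dvd_iff.1 hzp with h1 | h1
      · exact hz h1
      · exact h (h1.dvd.trans hzq)))

private theorem resultant_ne {P Q : B} (hP : Irreducible P) (hPQ : ¬ P ∣ Q) (hP0 : P.natDegree ≠ 0) :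
    resultant P Q ≠ 0 := by
  have hinj : Function.Injective (algebraMap ℂ[X] (FractionRing ℂ[X])) := IsFractionRing.injective _ _
  have hprim : P.IsPrimitive := hP.isPrimitive hP0
  have hirr : Irreducible (P.map (algebraMap ℂ[X] (FractionRing ℂ[X]))) :=
    hprim.irreducible_iff_irreducible_map_fraction_map.1 hP
  have hnd : ¬ P.map (algebraMap ℂ[X] (FractionRing ℂ[X])) ∣ Q.map (algebraMap ℂ[X] (FractionRing ℂ[X])) :=
    fun h => hPQ (hprim.dvd_of_fraction_map_dvd_fraction_map h)
  have hcop : IsCoprime (P.map (algebraMap ℂ[X] (FractionRing ℂ[X]))) (Q.map (algebraMap ℂ[X] (FractionRing ℂ[X]))) :=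
    cop_field hirr hnd
  have h := resultant_ne_zero _ _ hcop
  rw [natDegree_map_eq_of_injective hinj, natDegree_map_eq_of_injective hinj,
    resultant_map_map] at h
  intro h0
  exact h (by rw [h0, map_zero])

private theorem resultant_deg (P Q : B) {d e : ℕ} (hd : Deg d P) (he : Deg e Q) :
    (resultant P Q).natDegree ≤ 2 * d * e := by
  set m := P.natDegree with hm
  set n := Q.natDegree with hn
  have key : (resultant P Q m n).natDegree ≤ m * e + n * d := by
    unfold resultant
    rw [Matrix.det_apply']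
    apply natDegree_sum_le_of_forall_le
    intro σ _
    refine natDegree_mul_le.trans ?_
    rw [natDegree_intCast, zero_add]
    refine (natDegree_prod_le _ _).trans ?_
    rw [Fin.sum_univ_add]
    have h1 : ∀ j : Fin m, (sylvester P Q m n (σ (Fin.castAdd n j)) (Fin.castAdd n j)).natDegree ≤ e := by
      intro j
      simp only [sylvester, Matrix.of_apply, Fin.addCases_left]
      split_ifs
      · exact (coeff_natDegree_le _ _).trans he.2
      · simp
    have h2 : ∀ j : Fin n, (sylvester P Q m n (σ (Fin.natAdd m j)) (Fin.natAdd m j)).natDegree ≤ d := by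
      intro j
      simp only [sylvester, Matrix.of_apply, Fin.addCases_right]
      split_ifs
      · exact (coeff_natDegree_le _ _).trans hd.2
      · simp
    refine add_le_add ?_ ?_
    · refine (Finset.sum_le_sum fun j _ => h1 j).trans ?_
      simp
    · refine (Finset.sum_le_sum fun j _ => h2 j).trans ?_
      simp
  refine key.trans ?_
  have h1 : m ≤ d := hd.1
  have h2 : n ≤ e := he.1
  calc m * e + n * d ≤ d * e + e * d := by gcongr
    _ = 2 * d * e := by ring

theorem common_zeros {P Q : B} (hP : Irreducible P) (hPQ : ¬ P ∣ Q) {d e : ℕ} (hd : Deg d P)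
    (he : Deg e Q) :
    {u : ℂ | ∃ v : ℂ, P.evalEval u v = 0 ∧ Q.evalEval u v = 0}.Finite ∧
      {u : ℂ | ∃ v : ℂ, P.evalEval u v = 0 ∧ Q.evalEval u v = 0}.ncard ≤ 2 * d * e + 1 := by
  classical
  have aux : ∀ r : ℂ[X], r ≠ 0 → r.natDegree ≤ 2 * d * e + 1 →
      (∀ u v : ℂ, P.evalEval u v = 0 → Q.evalEval u v = 0 → r.eval u = 0) →
      {u : ℂ | ∃ v : ℂ, P.evalEval u v = 0 ∧ Q.evalEval u v = 0}.Finite ∧
        {u : ℂ | ∃ v : ℂ, P.evalEval u v = 0 ∧ Q.evalEval u v = 0}.ncard ≤ 2 * d * e + 1 := by
    intro r hr hdeg hroot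
    have hsub : {u : ℂ | ∃ v : ℂ, P.evalEval u v = 0 ∧ Q.evalEval u v = 0} ⊆
        (r.roots.toFinset : Set ℂ) := by
      rintro u ⟨v, h1, h2⟩
      simp only [Finset.mem_coe, Multiset.mem_toFinset]
      exact (mem_roots hr).2 (hroot u v h1 h2)
    refine ⟨(Finset.finite_toSet _).subset hsub, ?_⟩
    refine (Set.ncard_le_ncard hsub (Finset.finite_toSet _)).trans ?_
    rw [Set.ncard_coe_finset]
    exact ((Multiset.toFinset_card_le _).trans (card_roots' r)).trans hdeg
  by_cases hP0 : P.natDegree = 0
  · obtain ⟨p, rfl⟩ : ∃ p, P = C p := ⟨_, eq_C_of_natDegree_eq_zero hP0⟩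
    have hp : Irreducible p := (prime_C_iff.1 hP.prime).irreducible
    have hp1 : p.degree = 1 := IsAlgClosed.degree_eq_one_of_irreducible ℂ hp
    refine aux p hp.ne_zero ?_ ?_
    · have h1 : p.natDegree = 1 := natDegree_eq_of_degree_eq_some (by exact_mod_cast hp1)
      omega
    · intro u v h1 _
      rwa [evalEval_C] at h1
  · exact aux _ (resultant_ne hP hPQ hP0) ((resultant_deg P Q hd he).trans (Nat.le_succ _))
      (fun u v h1 h2 => evalEval_of_resultant hP0 u v h1 h2)

end Pool.Agent.EUP
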