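import Pool.Agent.EUP.NotDvd
import Pool.Agent.EUP.CommonZeros

/-!
CurveBound: few points on a curve.

PROOF.  For each `a ∈ F` the norm `NB c a` is not divisible by `P` (`not_dvd`), has `Deg (m 2^m)`, and vanishes (`rv_NB`) at the points
`w` with the relation `a`.  A point `w` is determined by `u = w`; `common_zeros` gives at most `2 d (m 2^m) + 1` points for each
`a`.  `Y` is contained in the union over `a ∈ F`.
-/

namespace Pool.Agent.EUP

open Polynomial Set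

theorem curve_bound {m : ℕ} {P : B} (hP : Irreducible P) {d : ℕ} (hd : Deg d P) {c : Fin m → ℂ}
    (hc : Function.Injective c) {v : Fin m → ℂ} (h0 : ∀ i, P.evalEval (c i) (v i) = 0)
    (h1 : ∀ i, (derivative P).evalEval (c i) (v i) ≠ 0) (h2 : ∀ i j, v i ≠ starRingEnd ℂ (c j))
    (F : Finset (Finset (Fin m) → ℝ)) (hF : ∀ a ∈ F, a ≠ 0) (Y : Set ℂ)
    (hY : ∀ w ∈ Y, rv P w = 0 ∧ ∃ a ∈ F, ∑ I : Finset (Fin m), a I * ∏ i ∈ I, dist w (c i) = 0) :
    Y.Finite ∧ Y.ncard ≤ F.card * (2 * d * (m * 2 ^ m) + 1) := by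
  set Z : (Finset (Fin m) → ℝ) → Set ℂ := fun a =>
    {u : ℂ | ∃ v : ℂ, P.evalEval u v = 0 ∧ (NB c a).evalEval u v = 0} with hZ
  have key : ∀ a ∈ F, (Z a).Finite ∧ (Z a).ncard ≤ 2 * d * (m * 2 ^ m) + 1 := fun a ha =>
    common_zeros hP (not_dvd hP hc h0 h1 h2 (hF a ha)) hd (Deg_NB c a)
  have hYs : Y ⊆ ⋃ a ∈ F, Z a := by
    intro w hw
    obtain ⟨hw1, a, ha, hw2⟩ := hY w hw
    simp only [mem_iUnion, exists_prop]
    exact ⟨a, ha, starRingEnd ℂ w, hw1, rv_NB c a w hw2⟩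
  have hfin : (⋃ a ∈ F, Z a).Finite := F.finite_toSet.biUnion fun a ha => (key a ha).1
  refine ⟨hfin.subset hYs, (ncard_le_ncard hYs hfin).trans ?_⟩
  refine (Finset.set_ncard_biUnion_le F Z).trans ?_
  refine (Finset.sum_le_card_nsmul F _ _ fun a ha => (key a ha).2).trans ?_
  rw [smul_eq_mul]

end Pool.Agent.EUP
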