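import Pool.Agent.EUD.SignNorm

/-!
# EUP (problem MP_85281a_co): rational-distance sets of bounded height in the plane

THEOREM (`Final.lean`).  There is `C` such that for every `H ≥ 2` and every set `W ⊆ E^2` all of whose distances are
fractions `a / b`, `0 ≤ a ≤ H`, `1 ≤ b ≤ H`, there is a line or circle `Γ` with `#(W \ Γ) ≤ C (log H)^50`.

STRATEGY.  `E^2 = ℂ`.  For base points `c 0, ..., c (m-1) ∈ W`, `m = 2 k`, `2^k ≍ L^2`, `2^L ≍ H`, the points of `W` fall into
`≪ L^10` classes, on each of which `∑_I a_I ∏_{i ∈ I} |w - c i| = 0` with some `a ≠ 0` (`Relations`, from project EUD).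
The norm of such a relation is a polynomial `NB c a` in `u = w`, `v = conj w`, of degree `≤ m 2^m` (bivariate
polynomials `B = ℂ[u][v]`).  Let `N` be the product of all these norms and of the `|w - c i|^2`; it vanishes on `W`.
For each irreducible factor `P` of `N` choose new base points among the points of `W` such that `P` does not divide the
new norms (`Select`, `NotDvd`: function field of the curve `P = 0`, square roots of `(u - c i)(v - conj c i)` independent
because each of them has a ramification point of its own); so the curve `P = 0` contains few points of `W`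
(`CurveBound`, `CommonZeros`).  The selection is possible unless `P` has degree `≤ 1` in `u` and in `v`, and few points
of `W` are off the curve `P = 0`, which then is contained in a line or circle (`Quadric`).
-/

namespace Pool.Agent.EUP

open Polynomial

/-- Bivariate polynomials: the inner variable is `u`, the outer (main) variable is `v`. -/
abbrev B := Polynomial (Polynomial ℂ)

/-- Degree at most `d` in each of the two variables. -/
def Deg (d : ℕ) (P : B) : Prop := P.natDegree ≤ d ∧ (Bivariate.swap P).natDegree ≤ d

/-- `(u - c) (v - conj c)`; at `u = w`, `v = conj w` its value is `|w - c|^2`. -/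
noncomputable def qB (c : ℂ) : B := C (X - C c) * (X - C (C (starRingEnd ℂ c)))

/-- The value of `P` at `u = w`, `v = conj w`. -/
noncomputable def rv (P : B) (w : ℂ) : ℂ := P.evalEval w (starRingEnd ℂ w)

/-- Sign norm of the multilinear form with coefficients `a`, as a polynomial in the squares. -/
noncomputable def Psign {m : ℕ} (a : Finset (Fin m) → ℝ) : MvPolynomial (Fin m) ℝ :=
  (EUD.sign_norm a).choose

/-- The norm polynomial of the relation `∑_I a I ∏_{i ∈ I} |w - c i| = 0`. -/
noncomputable def NB {m : ℕ} (c : Fin m → ℂ) (a : Finset (Fin m) → ℝ) : B :=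
  MvPolynomial.aeval (fun i => qB (c i)) (Psign a)

/-- All distances between points of `W` are fractions with numerator and denominator at most `H`. -/
def DistHt (H : ℕ) {E : Type*} [MetricSpace E] (W : Set E) : Prop :=
  ∀ x ∈ W, ∀ y ∈ W, ∃ a b : ℕ, a ≤ H ∧ 0 < b ∧ b ≤ H ∧ (b : ℝ) * dist x y = a

/-- `Γ` is a line or a circle of the plane `ℂ`. -/
def LineOrCircle (Γ : Set ℂ) : Prop :=
  (∃ p d : ℂ, d ≠ 0 ∧ Γ = {w | ∃ s : ℝ, w = p + s * d}) ∨ ∃ z : ℂ, ∃ r : ℝ, 0 < r ∧ Γ = Metric.sphere z r

end Pool.Agent.EUP
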