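import Pool.Agent.EUP.Defs

/-!
DegLem: degrees of bivariate polynomials.

`B` is a domain and `Bivariate.swap` is a ring isomorphism, so `natDegree` and `natDegree ∘ swap` are additive on nonzero
products (`natDegree_mul`), subadditive in general (`natDegree_mul_le`).
`Deg.of_dvd`: `N = P * Q`, both nonzero.
`irreducible_deg`: an irreducible `P` is not a nonzero constant, so one of the two degrees is `≥ 1` (if both are `0`,
`P = C (C a)`).
`factors`: the multiset `UniqueFactorizationMonoid.factors N` (or `normalizedFactors`); the sum of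
`natDegree P + (swap P).natDegree` over the factors is `≤ 2 d` and every summand is `≥ 1`.
`Deg_NB`: `aeval` of a polynomial of total degree `≤ D` at polynomials of degree `≤ 1` in each variable has degree `≤ D`
in each variable; `2 * totalDegree (Psign a) ≤ m 2^m` (`(EUD.sign_norm a).choose_spec.1`).
-/

namespace Pool.Agent.EUP

open Polynomial

theorem Deg.mul {d e : ℕ} {P Q : B} (hP : Deg d P) (hQ : Deg e Q) : Deg (d + e) (P * Q) := by
  refine ⟨natDegree_mul_le.trans (add_le_add hP.1 hQ.1), ?_⟩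
  rw [map_mul]
  exact natDegree_mul_le.trans (add_le_add hP.2 hQ.2)

theorem Deg.prod {ι : Type*} (s : Finset ι) (P : ι → B) (d : ℕ) (h : ∀ i ∈ s, Deg d (P i)) :
    Deg (s.card * d) (∏ i ∈ s, P i) := by
  classical
  induction s using Finset.induction_on with
  | empty => exact ⟨by simp, by simp⟩
  | insert a s ha ih =>
    rw [Finset.prod_insert ha, Finset.card_insert_of_notMem ha]
    have h1 := (h a (Finset.mem_insert_self a s)).mul
      (ih fun i hi => h i (Finset.mem_insert_of_mem hi))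
    have h2 : d + s.card * d = (s.card + 1) * d := by ring
    rwa [h2] at h1

theorem Deg.mono {d e : ℕ} {P : B} (hP : Deg d P) (h : d ≤ e) : Deg e P :=
  ⟨hP.1.trans h, hP.2.trans h⟩

private theorem swap_ne_zero {P : B} (h : P ≠ 0) : Bivariate.swap P ≠ 0 := by
  intro h1
  apply h
  have h2 := congrArg Bivariate.swap h1
  rwa [Bivariate.swap_swap_apply, map_zero] at h2

theorem Deg.of_dvd {d : ℕ} {P N : B} (hN : Deg d N) (hN0 : N ≠ 0) (h : P ∣ N) : Deg d P := by
  obtain ⟨Q, rfl⟩ := h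
  have hP0 : P ≠ 0 := left_ne_zero_of_mul hN0
  have hQ0 : Q ≠ 0 := right_ne_zero_of_mul hN0
  obtain ⟨h1, h2⟩ := hN
  rw [natDegree_mul hP0 hQ0] at h1
  rw [map_mul, natDegree_mul (swap_ne_zero hP0) (swap_ne_zero hQ0)] at h2
  exact ⟨(Nat.le_add_right _ _).trans h1, (Nat.le_add_right _ _).trans h2⟩

theorem irreducible_deg {P : B} (hP : Irreducible P) :
    1 ≤ P.natDegree ∨ 1 ≤ (Bivariate.swap P).natDegree := by
  by_contra h
  push Not at h
  have h1 : P.natDegree = 0 := by omega
  have h2 : (Bivariate.swap P).natDegree = 0 := by omega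
  obtain ⟨f, hf⟩ : ∃ f : ℂ[X], P = C f := ⟨_, eq_C_of_natDegree_eq_zero h1⟩
  rw [hf, Bivariate.swap_C, natDegree_map_eq_of_injective C_injective] at h2
  obtain ⟨a, ha⟩ : ∃ a : ℂ, f = C a := ⟨_, eq_C_of_natDegree_eq_zero h2⟩
  rw [ha] at hf
  have ha0 : a ≠ 0 := by
    rintro rfl
    apply hP.ne_zero
    rw [hf, C_0, C_0]
  apply hP.not_isUnit
  rw [hf]
  exact (isUnit_C.mpr (isUnit_C.mpr (isUnit_iff_ne_zero.mpr ha0)))

private theorem card_le_aux (t : Multiset B) : (∀ P ∈ t, Irreducible P) →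
    t.prod ≠ 0 ∧ t.card ≤ t.prod.natDegree + (Bivariate.swap t.prod).natDegree := by
  induction t using Multiset.induction_on with
  | empty =>
    intro _
    simp
  | cons P t ih =>
    intro h
    obtain ⟨h1, h2⟩ := ih fun Q hQ => h Q (Multiset.mem_cons_of_mem hQ)
    have hP := h P (Multiset.mem_cons_self P t)
    have hP0 := hP.ne_zero
    rw [Multiset.prod_cons, Multiset.card_cons]
    refine ⟨mul_ne_zero hP0 h1, ?_⟩
    rw [map_mul, natDegree_mul hP0 h1, natDegree_mul (swap_ne_zero hP0) (swap_ne_zero h1)]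
    have h3 := irreducible_deg hP
    omega

theorem factors {d : ℕ} {N : B} (hN : Deg d N) (hN0 : N ≠ 0) :
    ∃ Fs : Finset B, Fs.card ≤ 2 * d ∧ (∀ P ∈ Fs, Irreducible P ∧ Deg d P) ∧
      ∀ w : ℂ, rv N w = 0 → ∃ P ∈ Fs, rv P w = 0 := by
  classical
  have hirr : ∀ P ∈ UniqueFactorizationMonoid.factors N, Irreducible P :=
    UniqueFactorizationMonoid.irreducible_of_factor
  have hass := UniqueFactorizationMonoid.factors_prod hN0
  refine ⟨(UniqueFactorizationMonoid.factors N).toFinset, ?_, ?_, ?_⟩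
  · obtain ⟨-, h1⟩ := card_le_aux _ hirr
    have h2 := hN.of_dvd hN0 hass.dvd
    have h3 := Multiset.toFinset_card_le (UniqueFactorizationMonoid.factors N)
    have h4 := h2.1
    have h5 := h2.2
    omega
  · intro P hP
    rw [Multiset.mem_toFinset] at hP
    exact ⟨hirr P hP, hN.of_dvd hN0 (UniqueFactorizationMonoid.dvd_of_mem_factors hP)⟩
  · intro w hw
    obtain ⟨Q, hQ⟩ := hass.symm.dvd
    have h1 : rv (UniqueFactorizationMonoid.factors N).prod w = 0 := by
      rw [hQ]
      unfold rv at hw ⊢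
      rw [evalEval_mul, hw, zero_mul]
    unfold rv at h1
    rw [evalEval_multiset_prod, Multiset.prod_eq_zero_iff, Multiset.mem_map] at h1
    obtain ⟨P, hP, h2⟩ := h1
    exact ⟨P, Multiset.mem_toFinset.mpr hP, h2⟩

theorem Deg_qB (c : ℂ) : Deg 1 (qB c) := by
  unfold qB
  refine ⟨natDegree_mul_le.trans ?_, ?_⟩
  · rw [natDegree_C, natDegree_X_sub_C]
  · rw [map_mul]
    refine natDegree_mul_le.trans ?_
    have h1 : Bivariate.swap (C (X - C c) : B) = X - C (C c) := by
      rw [Bivariate.swap_C, Polynomial.map_sub, map_X, map_C]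
    have h2 : Bivariate.swap (X - C (C (starRingEnd ℂ c)) : B) = C (X - C (starRingEnd ℂ c)) := by
      rw [map_sub, Bivariate.swap_Y, Bivariate.swap_C_C, C_sub]
    rw [h1, h2, natDegree_C, natDegree_X_sub_C]

theorem qB_ne_zero (c : ℂ) : qB c ≠ 0 :=
  mul_ne_zero (C_ne_zero.mpr (X_sub_C_ne_zero c)) (X_sub_C_ne_zero _)

theorem rv_qB (c w : ℂ) : rv (qB c) w = ((dist w c ^ 2 : ℝ) : ℂ) := by
  unfold rv qB
  rw [evalEval_mul, evalEval_C, evalEval_sub, evalEval_X, evalEval_C, eval_sub, eval_X, eval_C,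
    eval_C, ← map_sub, Complex.mul_conj, Complex.normSq_eq_norm_sq, Complex.dist_eq]

theorem rv_mul (P Q : B) (w : ℂ) : rv (P * Q) w = rv P w * rv Q w := by
  simp [rv]

theorem rv_prod {ι : Type*} (s : Finset ι) (P : ι → B) (w : ℂ) :
    rv (∏ i ∈ s, P i) w = ∏ i ∈ s, rv (P i) w := by
  simp [rv, evalEval_prod]

private theorem natDegree_aeval_aux {m : ℕ} (f : Fin m → B) (hf : ∀ i, (f i).natDegree ≤ 1)
    (Q : MvPolynomial (Fin m) ℝ) : (MvPolynomial.aeval f Q).natDegree ≤ Q.totalDegree := by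
  rw [MvPolynomial.aeval_def, MvPolynomial.eval₂_eq']
  refine natDegree_sum_le_of_forall_le _ _ fun s hs => ?_
  refine natDegree_mul_le.trans ?_
  have h1 : (algebraMap ℝ B (MvPolynomial.coeff s Q)).natDegree = 0 := by
    rw [Polynomial.algebraMap_apply, natDegree_C]
  rw [h1, zero_add]
  refine (natDegree_prod_le _ _).trans ?_
  have h2 := MvPolynomial.le_totalDegree hs
  rw [Finsupp.sum_fintype _ _ (fun _ => rfl)] at h2
  refine le_trans (Finset.sum_le_sum fun i _ => ?_) h2
  refine natDegree_pow_le.trans ?_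
  calc s i * (f i).natDegree ≤ s i * 1 := Nat.mul_le_mul_left _ (hf i)
    _ = s i := mul_one _

private theorem swap_aeval {m : ℕ} (f : Fin m → B) (Q : MvPolynomial (Fin m) ℝ) :
    Bivariate.swap (MvPolynomial.aeval f Q) =
      MvPolynomial.aeval (fun i => Bivariate.swap (f i)) Q := by
  rw [MvPolynomial.aeval_def, MvPolynomial.aeval_def, MvPolynomial.eval₂_eq',
    MvPolynomial.eval₂_eq', map_sum]
  refine Finset.sum_congr rfl fun s _ => ?_
  rw [map_mul, map_prod]
  congr 1
  · rw [Polynomial.algebraMap_apply, Polynomial.algebraMap_apply]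
    exact Bivariate.swap_C_C _
  · exact Finset.prod_congr rfl fun i _ => map_pow _ _ _

theorem Deg_NB {m : ℕ} (c : Fin m → ℂ) (a : Finset (Fin m) → ℝ) : Deg (m * 2 ^ m) (NB c a) := by
  have h0 : 2 * (Psign a).totalDegree ≤ m * 2 ^ m := (EUD.sign_norm a).choose_spec.1
  have h1 : (Psign a).totalDegree ≤ m * 2 ^ m := by omega
  unfold NB
  refine ⟨(natDegree_aeval_aux _ (fun i => (Deg_qB (c i)).1) _).trans h1, ?_⟩
  rw [swap_aeval]
  exact (natDegree_aeval_aux _ (fun i => (Deg_qB (c i)).2) _).trans h1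

end Pool.Agent.EUP
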