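import Pool.Agent.EUP.Struct
import Pool.Agent.EUP.BdNum

/-!
Final: the theorem in `E^2 = EuclideanSpace ℝ (Fin 2)`, for all `H ≥ 2`.

PROOF.  Transfer by a linear isometry `E^2 ≃ ℂ` (`Complex.orthonormalBasisOneI.repr`, or `Complex.isometryOfOrthonormal`...), which maps
lines to lines and spheres to spheres.
`H ≥ H₀` large: `L = Nat.clog 2 H` (`H ≤ 2^L`, `L ≤ log₂ H + 1 ≤ 2 log H`), `DistHt H W → DistHt (2^L) W`, `struct` and `bd_le`:
`ncard ≤ L^45 ≤ (2 log H)^45 ≤ 2^45 (log H)^45 ≤ C (log H)^50` (`log H ≥ log 2 > 1/2`: `(log H)^45 ≤ 2^5 (log H)^50`).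
`H < H₀`: `DistHt H W → DistHt H₀ W`, so the bound for `H₀` holds, a constant `≤ C (1/2)^50 ≤ C (log H)^50`.
(Simplest: apply the large case to `max H H₀`.)
-/

namespace Pool.Agent.EUP

/-- `Γ` is a line or a circle of the Euclidean plane. -/
def LineOrCircleE (Γ : Set (EuclideanSpace ℝ (Fin 2))) : Prop :=
  (∃ p d : EuclideanSpace ℝ (Fin 2), d ≠ 0 ∧ Γ = {w | ∃ s : ℝ, w = p + s • d}) ∨
    ∃ z : EuclideanSpace ℝ (Fin 2), ∃ r : ℝ, 0 < r ∧ Γ = Metric.sphere z r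

private theorem clog_le {H : ℕ} (hH : 2 ≤ H) : (Nat.clog 2 H : ℝ) ≤ 4 * Real.log H := by
  have h1 : 2 ^ (Nat.clog 2 H).pred < H := Nat.pow_pred_clog_lt_self (by norm_num) (by omega)
  have h2 : ((2 : ℝ) ^ (Nat.clog 2 H).pred) ≤ H := by exact_mod_cast h1.le
  have h3 : (((Nat.clog 2 H).pred : ℕ) : ℝ) * Real.log 2 ≤ Real.log H := by
    rw [← Real.log_pow]
    exact Real.log_le_log (by positivity) h2
  have h4 := Real.log_two_gt_d9
  have h5 : Real.log 2 ≤ Real.log H := Real.log_le_log (by norm_num) (by exact_mod_cast hH)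
  have h6 : (Nat.clog 2 H : ℝ) ≤ ((Nat.clog 2 H).pred : ℕ) + 1 := by
    have : Nat.clog 2 H ≤ (Nat.clog 2 H).pred + 1 := by
      rw [Nat.pred_eq_sub_one]
      omega
    exact_mod_cast this
  have h7 : (0 : ℝ) ≤ ((Nat.clog 2 H).pred : ℕ) := Nat.cast_nonneg _
  nlinarith

theorem main : ∃ C : ℝ, ∀ H : ℕ, 2 ≤ H → ∀ W : Set (EuclideanSpace ℝ (Fin 2)), DistHt H W →
    ∃ Γ, LineOrCircleE Γ ∧ (W \ Γ).Finite ∧ ((W \ Γ).ncard : ℝ) ≤ C * Real.log H ^ 50 := by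
  obtain ⟨L₁, hL₁⟩ := struct
  obtain ⟨L₂, hL₂⟩ := bd_le
  obtain ⟨L₀, hL₀⟩ : ∃ L₀ : ℕ, L₀ = max L₁ L₂ := ⟨_, rfl⟩
  refine ⟨(4 + 2 * L₀) ^ 45 * 32, fun H hH W hW => ?_⟩
  obtain ⟨L, hL⟩ : ∃ L : ℕ, L = max (Nat.clog 2 H) L₀ := ⟨_, rfl⟩
  have hHL : H ≤ 2 ^ L := by
    refine (Nat.le_pow_clog (by norm_num) H).trans (Nat.pow_le_pow_right (by norm_num) ?_)
    rw [hL]
    exact le_max_left _ _
  have hL0L : L₀ ≤ L := by
    rw [hL]
    exact le_max_right _ _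
  have hLL₁ : L₁ ≤ L := by
    have : L₁ ≤ L₀ := by
      rw [hL₀]
      exact le_max_left _ _
    omega
  have hLL₂ : L₂ ≤ L := by
    have : L₂ ≤ L₀ := by
      rw [hL₀]
      exact le_max_right _ _
    omega
  obtain ⟨e, he⟩ : ∃ e : EuclideanSpace ℝ (Fin 2) ≃ₗᵢ[ℝ] ℂ,
      e = Complex.orthonormalBasisOneI.repr.symm := ⟨_, rfl⟩
  have hW' : DistHt (2 ^ L) (e '' W) := by
    rintro _ ⟨x, hx, rfl⟩ _ ⟨y, hy, rfl⟩
    obtain ⟨a, b, ha, hb0, hb, hab⟩ := hW x hx y hy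
    refine ⟨a, b, ha.trans hHL, hb0, hb.trans hHL, ?_⟩
    rw [LinearIsometryEquiv.dist_map]
    exact hab
  obtain ⟨Γ', hΓ', hfin, hcard⟩ := hL₁ L hLL₁ (e '' W) hW'
  have himg : e '' (W \ e ⁻¹' Γ') = e '' W \ Γ' := by
    ext z
    constructor
    · rintro ⟨x, ⟨hx, hx2⟩, rfl⟩
      exact ⟨⟨x, hx, rfl⟩, hx2⟩
    · rintro ⟨⟨x, hx, rfl⟩, hx2⟩
      exact ⟨x, ⟨hx, hx2⟩, rfl⟩
  refine ⟨e ⁻¹' Γ', ?_, ?_, ?_⟩
  · rcases hΓ' with ⟨p, d, hd, rfl⟩ | ⟨z, r, hr, rfl⟩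
    · left
      refine ⟨e.symm p, e.symm d, fun h => hd ?_, ?_⟩
      · rw [← e.apply_symm_apply d, h, map_zero]
      · ext x
        constructor
        · rintro ⟨t, ht⟩
          refine ⟨t, ?_⟩
          apply e.injective
          rw [ht, map_add, map_smul, e.apply_symm_apply, e.apply_symm_apply, Complex.real_smul]
        · rintro ⟨t, rfl⟩
          refine ⟨t, ?_⟩
          rw [map_add, map_smul, e.apply_symm_apply, e.apply_symm_apply, Complex.real_smul]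
    · right
      exact ⟨e.symm z, r, hr, e.preimage_sphere z r⟩
  · rw [← himg] at hfin
    exact Set.Finite.of_finite_image hfin e.injective.injOn
  · have h1 : (W \ e ⁻¹' Γ').ncard = (e '' W \ Γ').ncard := by
      rw [← himg, Set.ncard_image_of_injective _ e.injective]
    rw [h1]
    have h2 : ((e '' W \ Γ').ncard : ℝ) ≤ (L : ℝ) ^ 45 := by
      exact_mod_cast hcard.trans (hL₂ L hLL₂)
    have h3 : (1 / 2 : ℝ) ≤ Real.log H := by
      have h4 := Real.log_two_gt_d9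
      have h5 : Real.log 2 ≤ Real.log H := Real.log_le_log (by norm_num) (by exact_mod_cast hH)
      linarith
    have h4 : (L : ℝ) ≤ (4 + 2 * L₀) * Real.log H := by
      have h5 := clog_le hH
      have h6 : (0 : ℝ) ≤ L₀ := Nat.cast_nonneg _
      rw [hL]
      push_cast
      rcases le_total (Nat.clog 2 H : ℝ) (L₀ : ℝ) with h7 | h7
      · rw [max_eq_right h7]
        nlinarith
      · rw [max_eq_left h7]
        nlinarith
    have h5 : (L : ℝ) ^ 45 ≤ ((4 + 2 * L₀) * Real.log H) ^ 45 :=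
      pow_le_pow_left₀ (Nat.cast_nonneg _) h4 45
    have h6 : (1 / 2 : ℝ) ^ 5 ≤ Real.log H ^ 5 := pow_le_pow_left₀ (by norm_num) h3 5
    have h7 : Real.log H ^ 45 ≤ 32 * Real.log H ^ 50 := by
      have h8 : (0 : ℝ) ≤ Real.log H ^ 45 := by positivity
      have h9 : Real.log H ^ 50 = Real.log H ^ 45 * Real.log H ^ 5 := by ring
      rw [h9]
      nlinarith
    calc ((e '' W \ Γ').ncard : ℝ) ≤ (L : ℝ) ^ 45 := h2
      _ ≤ ((4 + 2 * L₀) * Real.log H) ^ 45 := h5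
      _ = (4 + 2 * L₀) ^ 45 * Real.log H ^ 45 := by rw [mul_pow]
      _ ≤ (4 + 2 * L₀) ^ 45 * (32 * Real.log H ^ 50) := by gcongr
      _ = (4 + 2 * L₀) ^ 45 * 32 * Real.log H ^ 50 := by ring

end Pool.Agent.EUP
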