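import Pool.Agent.EUP.Defs

/-!
Frame: rational coordinates of bounded height for a planar set.

PROOF.  Let `p₀, p₁, p₂ ∈ W` be not collinear, `e₁ = p₁ - p₀`, `e₂ = p₂ - p₀` (linearly independent over `ℝ`).  Let `D₀` be the product of the
denominators of the three distances (`≤ 2^(3L)`), `G = 2 D₀^2`.  The real inner products `⟪e i, e j⟫` (`⟪e₁, e₂⟫ = (|e₁|^2 + |e₂|^2 - |p₁-p₂|^2)/2`)
satisfy `G ⟪e i, e j⟫ ∈ ℤ`, `|⟪e i, e j⟫| ≤ 4^L`.  `A i j = G^2 ⟪e i, e j⟫` is an integral symmetric matrix; `qf A x = G^2 |x₀ e₁ + x₁ e₂|^2`, so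
`PosDef A`.  `X w ∈ ℚ^2` = coordinates of `w - p₀ = x₀ e₁ + x₁ e₂`.  With `D = D(w)` the product of the denominators of the three distances
`|w - p j|` (`≤ 2^(3L)`): `2 D^2 A x` is integral, where `(A x) i = G^2 ⟪e i, w - p₀⟫ = G^2 (|w-p₀|^2 + |e i|^2 - |w - p i|^2) / 2`
(`G ∣ G^2`, `G |e i|^2 ∈ ℤ`).  So `d = 2 |det A| D^2` is a denominator of `x` (Cramer, for `2 × 2` matrices explicitly).  Sizes:
`G ≤ 2^(6L+1)`, `|A i j| ≤ 2^(14L+2)`, `|det A| ≤ 2^(28L+5)`, `d ≤ 2^(34L+6) ≤ 2^(40L)` (`L ≥ 1`).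
(Compare `EUD/Geo.lean`, theorem `EUD.frame`, where the same is proved without the sizes for `EuclideanSpace`.)
-/

namespace Pool.Agent.EUP

private lemma fr_sq {H : ℕ} {W : Set ℂ} (hW : DistHt H W) {x y : ℂ} (hx : x ∈ W) (hy : y ∈ W) :
    ∃ a b : ℕ, a ≤ H ∧ 0 < b ∧ b ≤ H ∧
      (b : ℝ) ^ 2 * ((x.re - y.re) ^ 2 + (x.im - y.im) ^ 2) = (a : ℝ) ^ 2 := by
  obtain ⟨a, b, ha, hb0, hb, h⟩ := hW x hx y hy
  refine ⟨a, b, ha, hb0, hb, ?_⟩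
  have h1 : dist x y ^ 2 = (x.re - y.re) ^ 2 + (x.im - y.im) ^ 2 := by
    rw [Complex.dist_eq, Complex.sq_norm, Complex.normSq_apply, Complex.sub_re, Complex.sub_im]
    ring
  rw [← h1, ← mul_pow, h]

/-- Three points which are not collinear. -/
private lemma fr_points {W : Set ℂ} (hnc : ¬ Collinear ℝ W) :
    ∃ p₀ ∈ W, ∃ p₁ ∈ W, ∃ p₂ ∈ W, (p₁.re - p₀.re) * (p₂.im - p₀.im) -
      (p₁.im - p₀.im) * (p₂.re - p₀.re) ≠ 0 := by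
  have hne : W.Nonempty := by
    rw [Set.nonempty_iff_ne_empty]
    rintro rfl
    exact hnc (collinear_empty ℝ ℂ)
  obtain ⟨p₀, h0⟩ := hne
  rw [collinear_iff_of_mem h0] at hnc
  push Not at hnc
  obtain ⟨p₁, h1, h1'⟩ := hnc 0
  obtain ⟨p₂, h2, h2'⟩ := hnc (p₁ - p₀)
  refine ⟨p₀, h0, p₁, h1, p₂, h2, ?_⟩
  intro h
  have hp : p₁ ≠ p₀ := by
    intro h3
    apply h1' 0
    simp [h3]
  have hS : 0 < (p₁.re - p₀.re) ^ 2 + (p₁.im - p₀.im) ^ 2 := by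
    by_contra hcon
    have h4 : (p₁.re - p₀.re) ^ 2 + (p₁.im - p₀.im) ^ 2 = 0 :=
      le_antisymm (not_lt.1 hcon) (by positivity)
    have h5 : (p₁.re - p₀.re) ^ 2 = 0 := by linarith [sq_nonneg (p₁.re - p₀.re), sq_nonneg (p₁.im - p₀.im)]
    have h6 : (p₁.im - p₀.im) ^ 2 = 0 := by linarith [sq_nonneg (p₁.re - p₀.re), sq_nonneg (p₁.im - p₀.im)]
    apply hp
    apply Complex.ext
    · linarith [pow_eq_zero_iff (two_ne_zero) |>.1 h5]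
    · linarith [pow_eq_zero_iff (two_ne_zero) |>.1 h6]
  apply h2' (((p₁.re - p₀.re) * (p₂.re - p₀.re) + (p₁.im - p₀.im) * (p₂.im - p₀.im)) /
    ((p₁.re - p₀.re) ^ 2 + (p₁.im - p₀.im) ^ 2))
  apply Complex.ext
  · simp only [vadd_eq_add, Complex.add_re, Complex.real_smul, Complex.mul_re, Complex.ofReal_re,
      Complex.ofReal_im, Complex.sub_re, Complex.sub_im, zero_mul, sub_zero]
    rw [div_mul_eq_mul_div, div_add' _ _ _ hS.ne', eq_div_iff hS.ne']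
    linear_combination (-(p₁.im - p₀.im)) * h
  · simp only [vadd_eq_add, Complex.add_im, Complex.real_smul, Complex.mul_im, Complex.ofReal_re,
      Complex.ofReal_im, Complex.sub_re, Complex.sub_im, zero_mul, add_zero]
    rw [div_mul_eq_mul_div, div_add' _ _ _ hS.ne', eq_div_iff hS.ne']
    linear_combination (p₁.re - p₀.re) * h

open EUD in
theorem frame {L : ℕ} (hL : 1 ≤ L) {W : Set ℂ} (hW : DistHt (2 ^ L) W) (hnc : ¬ Collinear ℝ W) :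
    ∃ (A : Matrix (Fin 2) (Fin 2) ℤ) (G : ℕ) (X : ℂ → Fin 2 → ℚ), PosDef A ∧ 0 < G ∧
      G ≤ 2 ^ (8 * L) ∧ (∀ w ∈ W, HtLE (40 * L) (X w)) ∧
      (∀ w ∈ W, ∀ w' ∈ W, ((G : ℝ) * dist w w') ^ 2 = ((qf A (fun j => X w j - X w' j) : ℚ) : ℝ)) ∧
      Set.InjOn X W := by
  obtain ⟨P, hP⟩ : ∃ P : ℕ, P = 2 ^ L := ⟨_, rfl⟩
  have hP2 : 2 ≤ P := by
    rw [hP]
    calc 2 = 2 ^ 1 := by norm_num
      _ ≤ 2 ^ L := Nat.pow_le_pow_right (by norm_num) hL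
  have hP8 : 2 ^ (8 * L) = P ^ 8 := by rw [hP, ← pow_mul]; congr 1; ring
  have hP40 : 2 ^ (40 * L) = P ^ 40 := by rw [hP, ← pow_mul]; congr 1; ring
  rw [← hP] at hW
  obtain ⟨p₀, h0, p₁, h1, p₂, h2, hδ⟩ := fr_points hnc
  obtain ⟨a1, b1, ha1, hb1p, hb1, k1⟩ := fr_sq hW h1 h0
  obtain ⟨a2, b2, ha2, hb2p, hb2, k2⟩ := fr_sq hW h2 h0
  obtain ⟨a3, b3, ha3, hb3p, hb3, k3⟩ := fr_sq hW h1 h2
  obtain ⟨a, ha⟩ : ∃ a, a = p₁.re - p₀.re := ⟨_, rfl⟩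
  obtain ⟨b, hb⟩ : ∃ b, b = p₁.im - p₀.im := ⟨_, rfl⟩
  obtain ⟨c, hc⟩ : ∃ c, c = p₂.re - p₀.re := ⟨_, rfl⟩
  obtain ⟨d, hd⟩ : ∃ d, d = p₂.im - p₀.im := ⟨_, rfl⟩
  rw [← ha, ← hb, ← hc, ← hd] at hδ
  rw [← ha, ← hb] at k1
  rw [← hc, ← hd] at k2
  have k3' : (b3 : ℝ) ^ 2 * ((a - c) ^ 2 + (b - d) ^ 2) = (a3 : ℝ) ^ 2 := by
    rw [← k3, ha, hb, hc, hd]; ring
  obtain ⟨D0, hD0⟩ : ∃ D0 : ℕ, D0 = b1 * b2 * b3 := ⟨_, rfl⟩
  obtain ⟨N1, hN1⟩ : ∃ N : ℕ, N = (a1 * b2 * b3) ^ 2 := ⟨_, rfl⟩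
  obtain ⟨N2, hN2⟩ : ∃ N : ℕ, N = (a2 * b1 * b3) ^ 2 := ⟨_, rfl⟩
  obtain ⟨N3, hN3⟩ : ∃ N : ℕ, N = (a3 * b1 * b2) ^ 2 := ⟨_, rfl⟩
  have hD0p : 0 < D0 := by rw [hD0]; positivity
  have hD0r : (0 : ℝ) < (D0 : ℝ) := by exact_mod_cast hD0p
  have r1 : (N1 : ℝ) = (D0 : ℝ) ^ 2 * (a ^ 2 + b ^ 2) := by
    rw [hN1, hD0]; push_cast; rw [mul_pow, mul_pow, ← k1]; ring
  have r2 : (N2 : ℝ) = (D0 : ℝ) ^ 2 * (c ^ 2 + d ^ 2) := by
    rw [hN2, hD0]; push_cast; rw [mul_pow, mul_pow, ← k2]; ring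
  have r3 : (N3 : ℝ) = (D0 : ℝ) ^ 2 * ((a - c) ^ 2 + (b - d) ^ 2) := by
    rw [hN3, hD0]; push_cast; rw [mul_pow, mul_pow, ← k3']; ring
  -- the matrix
  obtain ⟨A0, hA0⟩ : ∃ A : ℤ, A = 4 * D0 ^ 2 * N1 := ⟨_, rfl⟩
  obtain ⟨A1, hA1⟩ : ∃ A : ℤ, A = 2 * D0 ^ 2 * (N1 + N2 - N3) := ⟨_, rfl⟩
  obtain ⟨A2, hA2⟩ : ∃ A : ℤ, A = 4 * D0 ^ 2 * N2 := ⟨_, rfl⟩
  obtain ⟨g, hg⟩ : ∃ g : ℝ, g = (2 * (D0 : ℝ) ^ 2) ^ 2 := ⟨_, rfl⟩
  have hgp : 0 < g := by rw [hg]; positivity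
  have q0 : (A0 : ℝ) = g * (a ^ 2 + b ^ 2) := by
    rw [hA0, hg]; push_cast; rw [r1]; ring
  have q1 : (A1 : ℝ) = g * (a * c + b * d) := by
    rw [hA1, hg]; push_cast; rw [r1, r2, r3]; ring
  have q2 : (A2 : ℝ) = g * (c ^ 2 + d ^ 2) := by
    rw [hA2, hg]; push_cast; rw [r2]; ring
  obtain ⟨A, hA⟩ : ∃ A : Matrix (Fin 2) (Fin 2) ℤ, A = !![A0, A1; A1, A2] := ⟨_, rfl⟩
  have hqf : ∀ x : Fin 2 → ℝ, qf A x =
      A0 * x 0 ^ 2 + 2 * A1 * x 0 * x 1 + A2 * x 1 ^ 2 := by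
    intro x
    rw [hA]
    simp only [qf, Fin.sum_univ_two, Matrix.of_apply, Matrix.cons_val', Matrix.cons_val_zero,
      Matrix.cons_val_one, Matrix.cons_val_fin_one]
    ring
  have hqf' : ∀ u v : ℝ, A0 * u ^ 2 + 2 * A1 * u * v + A2 * v ^ 2 =
      g * ((u * a + v * c) ^ 2 + (u * b + v * d) ^ 2) := by
    intro u v
    rw [q0, q1, q2]; ring
  obtain ⟨dt, hdt⟩ : ∃ z : ℤ, z = A0 * A2 - A1 ^ 2 := ⟨_, rfl⟩
  have hdtr : (dt : ℝ) = g ^ 2 * (a * d - b * c) ^ 2 := by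
    rw [hdt]; push_cast; rw [q0, q1, q2]; ring
  have hdtp : 0 < dt := by
    have : (0 : ℝ) < (dt : ℝ) := by
      rw [hdtr]
      have := sq_pos_of_ne_zero hδ
      positivity
    exact_mod_cast this
  have hpos : PosDef A := by
    intro x hx
    rw [hqf, hqf']
    have h3 : 0 < (x 0 * a + x 1 * c) ^ 2 + (x 0 * b + x 1 * d) ^ 2 := by
      by_contra hcon
      have h4 : (x 0 * a + x 1 * c) ^ 2 + (x 0 * b + x 1 * d) ^ 2 = 0 :=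
        le_antisymm (not_lt.1 hcon) (by positivity)
      have h5 : (x 0 * a + x 1 * c) ^ 2 = 0 := by
        linarith [sq_nonneg (x 0 * a + x 1 * c), sq_nonneg (x 0 * b + x 1 * d)]
      have h6 : (x 0 * b + x 1 * d) ^ 2 = 0 := by
        linarith [sq_nonneg (x 0 * a + x 1 * c), sq_nonneg (x 0 * b + x 1 * d)]
      have h7 := (pow_eq_zero_iff (two_ne_zero)).1 h5
      have h8 := (pow_eq_zero_iff (two_ne_zero)).1 h6
      have h9 : x 0 * (a * d - b * c) = 0 := by linear_combination d * h7 - c * h8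
      have h10 : x 1 * (a * d - b * c) = 0 := by linear_combination a * h8 - b * h7
      apply hx
      funext i
      fin_cases i
      · exact (mul_eq_zero.1 h9).resolve_right hδ
      · exact (mul_eq_zero.1 h10).resolve_right hδ
    positivity
  -- coordinates
  have hcoord : ∀ w : ℂ, ∃ x : Fin 2 → ℚ, w ∈ W → (HtLE (40 * L) x ∧
      (x 0 : ℝ) * a + (x 1 : ℝ) * c = w.re - p₀.re ∧
      (x 0 : ℝ) * b + (x 1 : ℝ) * d = w.im - p₀.im) := by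
    intro w
    by_cases hw : w ∈ W
    swap
    · exact ⟨0, fun h => absurd h hw⟩
    obtain ⟨c0, d0, hc0, hd0p, hd0, l0⟩ := fr_sq hW hw h0
    obtain ⟨c1, d1, hc1, hd1p, hd1, l1⟩ := fr_sq hW hw h1
    obtain ⟨c2, d2, hc2, hd2p, hd2, l2⟩ := fr_sq hW hw h2
    obtain ⟨z1, hz1⟩ : ∃ z, z = w.re - p₀.re := ⟨_, rfl⟩
    obtain ⟨z2, hz2⟩ : ∃ z, z = w.im - p₀.im := ⟨_, rfl⟩
    rw [← hz1, ← hz2] at l0
    have l1' : (d1 : ℝ) ^ 2 * ((z1 - a) ^ 2 + (z2 - b) ^ 2) = (c1 : ℝ) ^ 2 := by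
      rw [← l1, hz1, hz2, ha, hb]; ring
    have l2' : (d2 : ℝ) ^ 2 * ((z1 - c) ^ 2 + (z2 - d) ^ 2) = (c2 : ℝ) ^ 2 := by
      rw [← l2, hz1, hz2, hc, hd]; ring
    obtain ⟨D, hD⟩ : ∃ D : ℕ, D = d0 * d1 * d2 := ⟨_, rfl⟩
    have hDp : 0 < D := by rw [hD]; positivity
    have hDr : (0 : ℝ) < (D : ℝ) := by exact_mod_cast hDp
    obtain ⟨T1, hT1⟩ : ∃ T : ℤ, T = 2 * D0 ^ 4 * ((c0 * d1 * d2) ^ 2 - (c1 * d0 * d2) ^ 2) +
      2 * D0 ^ 2 * D ^ 2 * N1 := ⟨_, rfl⟩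
    obtain ⟨T2, hT2⟩ : ∃ T : ℤ, T = 2 * D0 ^ 4 * ((c0 * d1 * d2) ^ 2 - (c2 * d0 * d1) ^ 2) +
      2 * D0 ^ 2 * D ^ 2 * N2 := ⟨_, rfl⟩
    have t1 : (T1 : ℝ) = g * (D : ℝ) ^ 2 * (z1 * a + z2 * b) := by
      rw [hT1, hg]; push_cast
      rw [r1, mul_pow ((c0 : ℝ) * d1), mul_pow (c0 : ℝ), mul_pow ((c1 : ℝ) * d0), mul_pow (c1 : ℝ),
        ← l0, ← l1', hD]
      push_cast
      ring
    have t2 : (T2 : ℝ) = g * (D : ℝ) ^ 2 * (z1 * c + z2 * d) := by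
      rw [hT2, hg]; push_cast
      rw [r2, mul_pow ((c0 : ℝ) * d1), mul_pow (c0 : ℝ), mul_pow ((c2 : ℝ) * d0), mul_pow (c2 : ℝ),
        ← l0, ← l2', hD]
      push_cast
      ring
    have hdn : ((dt : ℚ) * (D : ℚ) ^ 2) ≠ 0 := by
      have h5 : (dt : ℚ) ≠ 0 := by exact_mod_cast hdtp.ne'
      have h6 : (D : ℚ) ≠ 0 := by exact_mod_cast hDp.ne'
      exact mul_ne_zero h5 (pow_ne_zero 2 h6)
    have hdnr : ((dt : ℝ) * (D : ℝ) ^ 2) ≠ 0 := by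
      have h5 : (dt : ℝ) ≠ 0 := by exact_mod_cast hdtp.ne'
      exact mul_ne_zero h5 (pow_ne_zero 2 hDr.ne')
    refine ⟨![((A2 * T1 - A1 * T2 : ℤ) : ℚ) / ((dt : ℚ) * (D : ℚ) ^ 2),
      ((A0 * T2 - A1 * T1 : ℤ) : ℚ) / ((dt : ℚ) * (D : ℚ) ^ 2)], fun _ => ⟨?_, ?_, ?_⟩⟩
    · refine ⟨dt.natAbs * D ^ 2, ?_, ?_, ?_⟩
      · have : 0 < dt.natAbs := Int.natAbs_pos.2 hdtp.ne'
        positivity
      · rw [hP40]
        have e1 : D0 ≤ P ^ 3 := by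
          rw [hD0]
          calc b1 * b2 * b3 ≤ P * P * P := Nat.mul_le_mul (Nat.mul_le_mul hb1 hb2) hb3
            _ = P ^ 3 := by ring
        have e2 : N1 ≤ (P ^ 3) ^ 2 := by
          rw [hN1]
          apply Nat.pow_le_pow_left
          calc a1 * b2 * b3 ≤ P * P * P := Nat.mul_le_mul (Nat.mul_le_mul ha1 hb2) hb3
            _ = P ^ 3 := by ring
        have e3 : N2 ≤ (P ^ 3) ^ 2 := by
          rw [hN2]
          apply Nat.pow_le_pow_left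
          calc a2 * b1 * b3 ≤ P * P * P := Nat.mul_le_mul (Nat.mul_le_mul ha2 hb1) hb3
            _ = P ^ 3 := by ring
        have e4 : D ≤ P ^ 3 := by
          rw [hD]
          calc d0 * d1 * d2 ≤ P * P * P := Nat.mul_le_mul (Nat.mul_le_mul hd0 hd1) hd2
            _ = P ^ 3 := by ring
        have e5 : dt.natAbs ≤ (4 * D0 ^ 2 * N1) * (4 * D0 ^ 2 * N2) := by
          have h8 : dt ≤ A0 * A2 := by
            rw [hdt]
            linarith [sq_nonneg A1]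
          rw [hA0, hA2] at h8
          zify
          rw [abs_of_pos hdtp]
          exact h8
        calc dt.natAbs * D ^ 2 ≤ ((4 * D0 ^ 2 * N1) * (4 * D0 ^ 2 * N2)) * D ^ 2 :=
              Nat.mul_le_mul_right _ e5
          _ ≤ ((4 * (P ^ 3) ^ 2 * (P ^ 3) ^ 2) * (4 * (P ^ 3) ^ 2 * (P ^ 3) ^ 2)) * (P ^ 3) ^ 2 := by
              gcongr
          _ = 2 ^ 4 * P ^ 30 := by ring
          _ ≤ P ^ 4 * P ^ 30 := Nat.mul_le_mul_right _ (Nat.pow_le_pow_left hP2 4)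
          _ = P ^ 34 := by ring
          _ ≤ P ^ 40 := Nat.pow_le_pow_right (by omega) (by norm_num)
      · have hcast : ((dt.natAbs * D ^ 2 : ℕ) : ℚ) = (dt : ℚ) * (D : ℚ) ^ 2 := by
          push_cast
          congr 1
          have h7 : ((dt.natAbs : ℤ) : ℚ) = ((dt : ℤ) : ℚ) := by
            rw [Int.natAbs_of_nonneg hdtp.le]
          rw [← h7]
          simp
        intro j
        rw [hcast]
        fin_cases j
        · exact ⟨A2 * T1 - A1 * T2, mul_div_cancel₀ _ hdn⟩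
        · exact ⟨A0 * T2 - A1 * T1, mul_div_cancel₀ _ hdn⟩
    · simp only [Matrix.cons_val_zero, Matrix.cons_val_one, Matrix.cons_val_fin_one]
      push_cast
      rw [← hz1, div_mul_eq_mul_div, div_mul_eq_mul_div, ← add_div, div_eq_iff hdnr, hdtr, q0, q1,
        q2, t1, t2]
      ring
    · simp only [Matrix.cons_val_zero, Matrix.cons_val_one, Matrix.cons_val_fin_one]
      push_cast
      rw [← hz2, div_mul_eq_mul_div, div_mul_eq_mul_div, ← add_div, div_eq_iff hdnr, hdtr, q0, q1,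
        q2, t1, t2]
      ring
  choose X hX using hcoord
  refine ⟨A, 2 * D0 ^ 2, X, hpos, by positivity, ?_, fun w hw => (hX w hw).1, ?_, ?_⟩
  · rw [hP8]
    have e1 : D0 ≤ P ^ 3 := by
      rw [hD0]
      calc b1 * b2 * b3 ≤ P * P * P := Nat.mul_le_mul (Nat.mul_le_mul hb1 hb2) hb3
        _ = P ^ 3 := by ring
    calc 2 * D0 ^ 2 ≤ P * (P ^ 3) ^ 2 := Nat.mul_le_mul hP2 (Nat.pow_le_pow_left e1 2)
      _ = P ^ 7 := by ring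
      _ ≤ P ^ 8 := Nat.pow_le_pow_right (by omega) (by norm_num)
  · intro w hw w' hw'
    obtain ⟨-, x1, x2⟩ := hX w hw
    obtain ⟨-, y1, y2⟩ := hX w' hw'
    have h5 : ((qf A (fun j => X w j - X w' j) : ℚ) : ℝ) =
        qf A (fun j => ((X w j : ℝ) - (X w' j : ℝ))) := by
      have := qf_map (Rat.castHom ℝ) A (fun j => X w j - X w' j)
      simpa using this
    rw [h5, hqf, hqf', mul_pow, hg]
    push_cast
    congr 1
    rw [Complex.dist_eq, Complex.sq_norm, Complex.normSq_apply, Complex.sub_re, Complex.sub_im,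
      show w.re - w'.re = (w.re - p₀.re) - (w'.re - p₀.re) by ring,
      show w.im - w'.im = (w.im - p₀.im) - (w'.im - p₀.im) by ring, ← x1, ← x2, ← y1, ← y2]
    ring
  · intro w hw w' hw' hww
    obtain ⟨-, x1, x2⟩ := hX w hw
    obtain ⟨-, y1, y2⟩ := hX w' hw'
    rw [hww] at x1 x2
    apply Complex.ext
    · linarith
    · linarith

end Pool.Agent.EUP
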