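import Pool.Agent.EUP.DegLem

/-!
NormB: the norm polynomial in arbitrary algebras.

`Psign_aeval`: the identity of `EUD.sign_norm` (`(EUD.sign_norm a).choose_spec.2`) holds at all real points, hence is an
identity of polynomials over `ℝ` (`MvPolynomial.funext`):
`aeval (fun i => X i ^ 2) (Psign a) = ∏ σ, ∑ I, C (a I) * ∏ i ∈ I, (if i ∈ σ then -X i else X i)`; apply `aeval z`.
`NB_map`: `f (NB c a) = aeval (f ∘ qB ∘ c) (Psign a)` for `f : B →ₐ[ℝ] Ω`.
`rv_NB`: `f = evalEval w (conj w)`, `z i = (dist w (c i) : ℂ)`; the factor `σ = ∅` is zero.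
-/

namespace Pool.Agent.EUP

open Polynomial

private theorem Psign_id {m : ℕ} (a : Finset (Fin m) → ℝ) :
    MvPolynomial.aeval (fun i => (MvPolynomial.X i : MvPolynomial (Fin m) ℝ) ^ 2) (Psign a) =
      ∏ σ : Finset (Fin m), ∑ I : Finset (Fin m),
        MvPolynomial.C (a I) * ∏ i ∈ I, (if i ∈ σ then -MvPolynomial.X i else MvPolynomial.X i) := by
  apply MvPolynomial.funext
  intro z
  have h := (EUD.sign_norm a).choose_spec.2 z
  change MvPolynomial.eval (fun i => z i ^ 2) (Psign a) = _ at h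
  have h1 : MvPolynomial.eval z (MvPolynomial.aeval
      (fun i => (MvPolynomial.X i : MvPolynomial (Fin m) ℝ) ^ 2) (Psign a)) =
      MvPolynomial.eval (fun i => z i ^ 2) (Psign a) := by
    rw [← MvPolynomial.coe_aeval_eq_eval, ← MvPolynomial.coe_aeval_eq_eval]
    change (MvPolynomial.aeval z) (MvPolynomial.aeval
      (fun i => (MvPolynomial.X i : MvPolynomial (Fin m) ℝ) ^ 2) (Psign a)) =
      MvPolynomial.aeval (fun i => z i ^ 2) (Psign a)
    rw [MvPolynomial.comp_aeval_apply]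
    congr 2
    funext i
    rw [map_pow, MvPolynomial.aeval_X]
  rw [h1, h, map_prod]
  refine Finset.prod_congr rfl fun σ _ => ?_
  rw [map_sum]
  refine Finset.sum_congr rfl fun I _ => ?_
  rw [map_mul, MvPolynomial.eval_C, map_prod]
  congr 1
  refine Finset.prod_congr rfl fun i _ => ?_
  split_ifs
  · rw [map_neg, MvPolynomial.eval_X]
  · rw [MvPolynomial.eval_X]

theorem Psign_aeval {m : ℕ} (a : Finset (Fin m) → ℝ) {Ω : Type*} [CommRing Ω] [Algebra ℝ Ω]
    (z : Fin m → Ω) : MvPolynomial.aeval (fun i => z i ^ 2) (Psign a) =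
      ∏ σ : Finset (Fin m), ∑ I : Finset (Fin m),
        algebraMap ℝ Ω (a I) * ∏ i ∈ I, (if i ∈ σ then -z i else z i) := by
  have h := congrArg (MvPolynomial.aeval z) (Psign_id a)
  rw [MvPolynomial.comp_aeval_apply] at h
  have h1 : (fun i => (MvPolynomial.aeval z) ((MvPolynomial.X i : MvPolynomial (Fin m) ℝ) ^ 2)) =
      fun i => z i ^ 2 := by
    funext i
    rw [map_pow, MvPolynomial.aeval_X]
  rw [h1] at h
  rw [h, map_prod]
  refine Finset.prod_congr rfl fun σ _ => ?_
  rw [map_sum]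
  refine Finset.sum_congr rfl fun I _ => ?_
  rw [map_mul, MvPolynomial.aeval_C, map_prod]
  congr 1
  refine Finset.prod_congr rfl fun i _ => ?_
  split_ifs
  · rw [map_neg, MvPolynomial.aeval_X]
  · rw [MvPolynomial.aeval_X]

theorem NB_map {m : ℕ} (c : Fin m → ℂ) (a : Finset (Fin m) → ℝ) {Ω : Type*} [CommRing Ω]
    (f : B →+* Ω) (z : Fin m → Ω) (hz : ∀ i, z i ^ 2 = f (qB (c i))) :
    f (NB c a) = ∏ σ : Finset (Fin m), ∑ I : Finset (Fin m),
      f (C (C ((a I : ℝ) : ℂ))) * ∏ i ∈ I, (if i ∈ σ then -z i else z i) := by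
  let _ : Algebra ℝ Ω := (f.comp (algebraMap ℝ B)).toAlgebra
  have h := Psign_aeval a z
  have h1 : f (NB c a) = MvPolynomial.aeval (fun i => z i ^ 2) (Psign a) := by
    unfold NB
    rw [MvPolynomial.aeval_def, MvPolynomial.aeval_def, MvPolynomial.hom_eval₂]
    have h2 : (fun i => z i ^ 2) = (⇑f ∘ fun i => qB (c i)) := by
      funext i
      exact hz i
    rw [h2]
    rfl
  rw [h1, h]
  refine Finset.prod_congr rfl fun σ _ => ?_
  refine Finset.sum_congr rfl fun I _ => ?_
  congr 1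

theorem rv_NB {m : ℕ} (c : Fin m → ℂ) (a : Finset (Fin m) → ℝ) (w : ℂ)
    (h : ∑ I : Finset (Fin m), a I * ∏ i ∈ I, dist w (c i) = 0) : rv (NB c a) w = 0 := by
  have h1 := NB_map c a (Polynomial.evalEvalRingHom w (starRingEnd ℂ w))
    (fun i => ((dist w (c i) : ℝ) : ℂ)) (by
      intro i
      have h2 := rv_qB (c i) w
      unfold rv at h2
      rw [Polynomial.coe_evalEvalRingHom, h2]
      push_cast
      ring)
  rw [Polynomial.coe_evalEvalRingHom] at h1
  unfold rv
  rw [h1]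
  refine Finset.prod_eq_zero (Finset.mem_univ ∅) ?_
  have h3 := congrArg (fun x : ℝ => (x : ℂ)) h
  simp only [Complex.ofReal_sum, Complex.ofReal_mul, Complex.ofReal_prod, Complex.ofReal_zero] at h3
  rw [← h3]
  refine Finset.sum_congr rfl fun I _ => ?_
  congr 1
  rw [evalEval_C, eval_C]

end Pool.Agent.EUP
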