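import Mathlib

/-!
SqrtIndep: linear independence of products of square roots over a field.

PROOF by induction on `m`, for all fields `K` between (i.e. generalise over `K`, `Ω` fixed or also varying).  `m = 0`: the sum is
`a ∅`.  Step: `m + 1`.  Write `z' = z 0` and `K' = K(z') ⊆ Ω` (`IntermediateField.adjoin K {z 0}`), a field in which every element is
`x + y z'`, `x, y ∈ K` (`z'^2 = q 0 ∈ K`), and `z' ∉ K` (`q 0` is not a square), so `1, z'` are independent over `K`.
Claim: for nonempty `J ⊆ {1..m}` the element `Q = ∏_{j ∈ J} q j` is not a square in `K'`: if `Q = (x + y z')^2 = x^2 + y^2 q 0 + 2 x y z'`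
then `2 x y = 0`, so `x = 0` or `y = 0`; `y = 0`: `Q = x^2` is a square in `K`; `x = 0`: `Q = y^2 q 0`, so `q 0 * Q = (y q 0)^2` is a square in
`K`; both are excluded by `hq`.  By the induction hypothesis over `K'`, the products `∏_{i ∈ I} z i`, `I ⊆ {1..m}`, are independent over
`K'`.  `∑_I a I ∏_{i ∈ I} z i = ∑_{I ⊆ {1..m}} (a I + a ({0} ∪ I) z') ∏_{i ∈ I} z i = 0`, so `a I + a ({0} ∪ I) z' = 0`, so both
are `0`.
(It may be more convenient to prove the statement for finite subsets `T` of an arbitrary index type by induction on `T`: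
coefficients `a : Finset ι → K`, `∑ I ∈ T.powerset, ...`, `Finset.sum_powerset_insert`.)
-/

namespace Pool.Agent.EUP

/-- The quadratic extension `K + K z` inside `Ω`, `z ^ 2 ∈ K` not a square in `K`. -/
private def quadExt {Ω : Type} [Field Ω] (K : Subfield Ω) (z : Ω) (hz : z ^ 2 ∈ K)
    (hsq : ∀ x ∈ K, x ^ 2 ≠ z ^ 2) : Subfield Ω where
  carrier := {w | ∃ x ∈ K, ∃ y ∈ K, w = x + y * z}
  mul_mem' := by
    rintro _ _ ⟨x, hx, y, hy, rfl⟩ ⟨x', hx', y', hy', rfl⟩
    refine ⟨x * x' + y * y' * z ^ 2, K.add_mem (K.mul_mem hx hx') (K.mul_mem (K.mul_mem hy hy') hz),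
      x * y' + y * x', K.add_mem (K.mul_mem hx hy') (K.mul_mem hy hx'), by ring⟩
  one_mem' := ⟨1, K.one_mem, 0, K.zero_mem, by ring⟩
  add_mem' := by
    rintro _ _ ⟨x, hx, y, hy, rfl⟩ ⟨x', hx', y', hy', rfl⟩
    exact ⟨x + x', K.add_mem hx hx', y + y', K.add_mem hy hy', by ring⟩
  zero_mem' := ⟨0, K.zero_mem, 0, K.zero_mem, by ring⟩
  neg_mem' := by
    rintro _ ⟨x, hx, y, hy, rfl⟩
    exact ⟨-x, K.neg_mem hx, -y, K.neg_mem hy, by ring⟩
  inv_mem' := by
    rintro _ ⟨x, hx, y, hy, rfl⟩
    by_cases h0 : x + y * z = 0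
    · rw [h0, inv_zero]
      exact ⟨0, K.zero_mem, 0, K.zero_mem, by ring⟩
    · have hN : x ^ 2 - y ^ 2 * z ^ 2 ≠ 0 := by
        intro hN
        by_cases hy0 : y = 0
        · rw [hy0] at hN h0
          apply h0
          have : x ^ 2 = 0 := by linear_combination hN
          have hx0 : x = 0 := pow_eq_zero_iff (two_ne_zero) |>.1 this
          rw [hx0]
          ring
        · apply hsq (x / y) (K.div_mem hx hy)
          rw [div_pow, div_eq_iff (pow_ne_zero 2 hy0)]
          linear_combination hN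
      have hNK : x ^ 2 - y ^ 2 * z ^ 2 ∈ K :=
        K.sub_mem (K.pow_mem hx 2) (K.mul_mem (K.pow_mem hy 2) hz)
      refine ⟨x / (x ^ 2 - y ^ 2 * z ^ 2), K.div_mem hx hNK, -y / (x ^ 2 - y ^ 2 * z ^ 2),
        K.div_mem (K.neg_mem hy) hNK, ?_⟩
      rw [inv_eq_iff_eq_inv, eq_comm, inv_eq_iff_eq_inv, eq_comm]
      apply inv_eq_of_mul_eq_one_right
      field_simp
      ring

private theorem mem_quadExt {Ω : Type} [Field Ω] {K : Subfield Ω} {z : Ω} {hz : z ^ 2 ∈ K}
    {hsq : ∀ x ∈ K, x ^ 2 ≠ z ^ 2} {w : Ω} :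
    w ∈ quadExt K z hz hsq ↔ ∃ x ∈ K, ∃ y ∈ K, w = x + y * z := Iff.rfl

private theorem indep_aux {Ω ι : Type} [Field Ω] [DecidableEq ι] (h2 : (2 : Ω) ≠ 0) (z : ι → Ω)
    (T : Finset ι) : ∀ (K : Subfield Ω), (∀ i ∈ T, z i ^ 2 ∈ K) →
      (∀ J ⊆ T, J.Nonempty → ∀ x ∈ K, x ^ 2 ≠ ∏ j ∈ J, z j ^ 2) →
      ∀ a : Finset ι → Ω, (∀ I ⊆ T, a I ∈ K) →
        ∑ I ∈ T.powerset, a I * ∏ i ∈ I, z i = 0 → ∀ I ⊆ T, a I = 0 := by
  induction T using Finset.induction_on with
  | empty =>
    intro K _ _ a _ h I hI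
    rw [Finset.subset_empty] at hI
    subst hI
    simpa using h
  | insert t T ht ih =>
    intro K hzK hsq a haK h I hI
    have hzt : z t ^ 2 ∈ K := hzK t (Finset.mem_insert_self t T)
    have hqt : ∀ x ∈ K, x ^ 2 ≠ z t ^ 2 := by
      intro x hx
      have := hsq {t} (Finset.singleton_subset_iff.2 (Finset.mem_insert_self t T))
        (Finset.singleton_nonempty t) x hx
      rwa [Finset.prod_singleton] at this
    have hztK : z t ∉ K := fun hm => hqt (z t) hm rfl
    let K' := quadExt K (z t) hzt hqt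
    have hKK' : ∀ x ∈ K, x ∈ K' := fun x hx => ⟨x, hx, 0, K.zero_mem, by ring⟩
    have hsq' : ∀ J ⊆ T, J.Nonempty → ∀ x ∈ K', x ^ 2 ≠ ∏ j ∈ J, z j ^ 2 := by
      rintro J hJ hJne _ ⟨x, hx, y, hy, rfl⟩ heq
      have hQK : ∏ j ∈ J, z j ^ 2 ∈ K :=
        K.prod_mem fun j hj => hzK j (Finset.mem_insert_of_mem (hJ hj))
      have hxy : x * y = 0 := by
        by_contra hne
        apply hztK
        have h3 : z t = (∏ j ∈ J, z j ^ 2 - x ^ 2 - y ^ 2 * z t ^ 2) / (2 * (x * y)) := by
          rw [eq_div_iff (mul_ne_zero h2 hne)]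
          linear_combination heq
        rw [h3]
        have h2K : (2 : Ω) ∈ K := by
          have : (2 : Ω) = 1 + 1 := by norm_num
          rw [this]
          exact K.add_mem K.one_mem K.one_mem
        exact K.div_mem (K.sub_mem (K.sub_mem hQK (K.pow_mem hx 2))
          (K.mul_mem (K.pow_mem hy 2) hzt)) (K.mul_mem h2K (K.mul_mem hx hy))
      rcases mul_eq_zero.1 hxy with h0 | h0
      · rw [h0] at heq
        have htJ : t ∉ J := fun hm => ht (hJ hm)
        apply hsq (insert t J) (Finset.insert_subset_insert t hJ) (Finset.insert_nonempty t J)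
          (y * z t ^ 2) (K.mul_mem hy hzt)
        rw [Finset.prod_insert htJ]
        linear_combination (z t ^ 2) * heq
      · rw [h0] at heq
        apply hsq J (hJ.trans (Finset.subset_insert t T)) hJne x hx
        linear_combination heq
    have hb : ∀ I ⊆ T, a I + a (insert t I) * z t ∈ K' := fun I hI =>
      ⟨a I, haK I (hI.trans (Finset.subset_insert t T)), a (insert t I),
        haK _ (Finset.insert_subset_insert t hI), rfl⟩
    have hsum : ∑ I ∈ T.powerset, (a I + a (insert t I) * z t) * ∏ i ∈ I, z i = 0 := by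
      rw [Finset.sum_powerset_insert ht] at h
      rw [← h, ← Finset.sum_add_distrib]
      refine Finset.sum_congr rfl fun I hI => ?_
      have htI : t ∉ I := fun hm => ht (Finset.mem_powerset.1 hI hm)
      rw [Finset.prod_insert htI]
      ring
    have hzero := ih K' (fun i hi => hKK' _ (hzK i (Finset.mem_insert_of_mem hi))) hsq'
      (fun I => a I + a (insert t I) * z t) hb hsum
    have hboth : ∀ I ⊆ T, a I = 0 ∧ a (insert t I) = 0 := by
      intro I hI
      have h3 : a I + a (insert t I) * z t = 0 := hzero I hI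
      have h4 : a (insert t I) = 0 := by
        by_contra hne
        apply hztK
        have h5 : z t = -a I / a (insert t I) := by
          rw [eq_div_iff hne]
          linear_combination h3
        rw [h5]
        exact K.div_mem (K.neg_mem (haK I (hI.trans (Finset.subset_insert t T))))
          (haK _ (Finset.insert_subset_insert t hI))
      rw [h4, zero_mul, add_zero] at h3
      exact ⟨h3, h4⟩
    by_cases htI : t ∈ I
    · have h3 : I = insert t (I.erase t) := (Finset.insert_erase htI).symm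
      rw [h3]
      exact (hboth (I.erase t) (Finset.subset_insert_iff.1 hI)).2
    · exact (hboth I ((Finset.subset_insert_iff_of_notMem htI).1 hI)).1

theorem sqrt_indep {K Ω : Type} [Field K] [Field Ω] [Algebra K Ω] (h2 : (2 : K) ≠ 0) {m : ℕ}
    (q : Fin m → K) (hq : ∀ J : Finset (Fin m), J.Nonempty → ¬ IsSquare (∏ j ∈ J, q j))
    (z : Fin m → Ω) (hz : ∀ i, z i ^ 2 = algebraMap K Ω (q i)) (a : Finset (Fin m) → K)
    (h : ∑ I : Finset (Fin m), algebraMap K Ω (a I) * ∏ i ∈ I, z i = 0) : a = 0 := by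
  have hinj : Function.Injective (algebraMap K Ω) := (algebraMap K Ω).injective
  have h2' : (2 : Ω) ≠ 0 := by
    have : (2 : Ω) = algebraMap K Ω 2 := (map_ofNat (algebraMap K Ω) 2).symm
    rw [this]
    exact fun h0 => h2 (hinj (by rw [h0, map_zero]))
  have hmem : ∀ x : K, algebraMap K Ω x ∈ (algebraMap K Ω).fieldRange := fun x => ⟨x, rfl⟩
  have key := indep_aux h2' z Finset.univ (algebraMap K Ω).fieldRange
    (fun i _ => by rw [hz]; exact hmem _) (by
      rintro J - hJ _ ⟨y, rfl⟩ heq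
      apply hq J hJ
      refine ⟨y, ?_⟩
      apply hinj
      rw [map_prod, map_mul, ← pow_two, heq]
      exact Finset.prod_congr rfl fun j _ => (hz j).symm)
    (fun I => algebraMap K Ω (a I)) (fun I _ => hmem _) (by
      rw [Finset.powerset_univ]
      exact h)
  funext I
  apply hinj
  rw [key I (Finset.subset_univ I), Pi.zero_apply, map_zero]

end Pool.Agent.EUP
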