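import Pool.Agent.EUP.NormB
import Pool.Agent.EUP.Branch
import Pool.Agent.EUP.SqrtIndep

/-!
NotDvd: the norm does not vanish on the curve `P = 0` for selected base points.

PROOF.  `R = B ⧸ Ideal.span {P}` is a domain (`P` irreducible in a UFD, so prime), `K = FractionRing R`, `Ω = AlgebraicClosure K`,
`π : B → K`.  Let `J` be nonempty, `i ∈ J`, `s = ∏_{j ∈ J} qB (c j)`.  `π s` is not a square in `K`: otherwise
`P ∣ s g^2 - h^2` with `g, h ∈ B`, `P ∤ g`.  Let `θ` be the branch at `(c i, v i)`, `φ = θ X`.  `θ (qB (c j)) = (C (c i - c j) + t) (φ - C (conj (c j)))`,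
the second factor is a unit (`constantCoeff φ = v i ≠ conj (c j)`), the first one is a unit for `j ≠ i` (`c` injective) and
equal to `t` for `j = i`.  So `θ s = t * unit` has order `1`, and `θ s * (θ g)^2 = (θ h)^2` with `θ g ≠ 0`: the orders are `1 + 2 a` and
`2 b`, contradiction.  So `sqrt_indep` applies to `q i = π (qB (c i))` and square roots `z i ∈ Ω`.
Suppose `P ∣ NB c a`.  Then `0 = π (NB c a) = ∏_σ ∑_I a I ∏_{i ∈ I} (± z i)` (`NB_map`), so for some `σ`
`∑_I ((-1)^(card (I ∩ σ)) a I) ∏ z i = 0` and by `sqrt_indep` (coefficients `π (C (C (a I)))` up to sign) all `a I = 0`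
(`ℝ → ℂ → K` is injective: constants are not divisible by `P`).
-/

namespace Pool.Agent.EUP

open Polynomial

private theorem order_unit {w : PowerSeries ℂ} (h : PowerSeries.constantCoeff w ≠ 0) :
    w.order = 0 := by
  by_contra hne
  have h1 : 0 < w.order := pos_iff_ne_zero.2 hne
  apply h
  rw [← PowerSeries.coeff_zero_eq_constantCoeff_apply]
  exact PowerSeries.coeff_of_lt_order 0 (by exact_mod_cast h1)

private theorem theta_qB {θ : B →+* PowerSeries ℂ} (hC : ∀ a : ℂ, θ (C (C a)) = PowerSeries.C a)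
    {u₀ : ℂ} (hX : θ (C X) = PowerSeries.C u₀ + PowerSeries.X) (c : ℂ) :
    θ (qB c) = (PowerSeries.C (u₀ - c) + PowerSeries.X) *
      (θ X - PowerSeries.C (starRingEnd ℂ c)) := by
  unfold qB
  simp only [map_mul, map_sub, hX, hC]
  ring

private theorem theta_order {m : ℕ} {P : B} {c : Fin m → ℂ} (hc : Function.Injective c)
    {v : Fin m → ℂ} (h2 : ∀ i j, v i ≠ starRingEnd ℂ (c j))
    {θ : B →+* PowerSeries ℂ} (hC : ∀ a : ℂ, θ (C (C a)) = PowerSeries.C a) {i : Fin m}
    (hX : θ (C X) = PowerSeries.C (c i) + PowerSeries.X)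
    (hv : PowerSeries.constantCoeff (θ X) = v i) {J : Finset (Fin m)} (hi : i ∈ J) :
    (θ (∏ j ∈ J, qB (c j))).order = 1 := by
  have hw : ∃ w : PowerSeries ℂ, PowerSeries.constantCoeff w ≠ 0 ∧
      θ (∏ j ∈ J, qB (c j)) = PowerSeries.X * w := by
    refine ⟨(θ X - PowerSeries.C (starRingEnd ℂ (c i))) * ∏ j ∈ J.erase i, θ (qB (c j)), ?_, ?_⟩
    · rw [map_mul, map_prod]
      refine mul_ne_zero ?_ (Finset.prod_ne_zero_iff.2 fun j hj => ?_)
      · rw [map_sub, hv, PowerSeries.constantCoeff_C]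
        exact sub_ne_zero.2 (h2 i i)
      · rw [theta_qB hC hX]
        simp only [map_mul, map_add, map_sub, PowerSeries.constantCoeff_C,
          PowerSeries.constantCoeff_X, hv, add_zero]
        refine mul_ne_zero (sub_ne_zero.2 fun h => ?_) (sub_ne_zero.2 (h2 i j))
        exact (Finset.mem_erase.1 hj).1 (hc h).symm
    · rw [map_prod, ← Finset.mul_prod_erase J _ hi, theta_qB hC hX, sub_self, map_zero, zero_add,
        mul_assoc]
  obtain ⟨w, hw0, hw1⟩ := hw
  rw [hw1, PowerSeries.order_mul, PowerSeries.order_X, order_unit hw0, add_zero]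

private theorem core {R K Ω : Type} [CommRing R] [IsDomain R] [Field K] [Algebra R K]
    [IsFractionRing R K] [Field Ω] [Algebra K Ω] [IsAlgClosed Ω] {m : ℕ} {P : B}
    (hP : Irreducible P) {π : B →+* R} (hs : Function.Surjective π)
    (hk : ∀ g, π g = 0 ↔ P ∣ g) (h2K : (2 : K) ≠ 0) {c : Fin m → ℂ} (hc : Function.Injective c)
    {v : Fin m → ℂ} (h0 : ∀ i, P.evalEval (c i) (v i) = 0)
    (h1 : ∀ i, (derivative P).evalEval (c i) (v i) ≠ 0) (h2 : ∀ i j, v i ≠ starRingEnd ℂ (c j))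
    {a : Finset (Fin m) → ℝ} (ha : a ≠ 0) : ¬ P ∣ NB c a := by
  have hinj : Function.Injective (algebraMap R K) := IsFractionRing.injective R K
  have hsq : ∀ J : Finset (Fin m), J.Nonempty →
      ¬ IsSquare (∏ j ∈ J, algebraMap R K (π (qB (c j)))) := by
    rintro J ⟨i, hi⟩ ⟨y, hy⟩
    obtain ⟨r, t, ht, rfl⟩ := IsFractionRing.div_surjective (A := R) y
    obtain ⟨h, rfl⟩ := hs r
    obtain ⟨g, rfl⟩ := hs t
    have hg0 : π g ≠ 0 := nonZeroDivisors.ne_zero ht
    have hg0' : algebraMap R K (π g) ≠ 0 := fun h' => hg0 (hinj (by rw [h', map_zero]))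
    have hPg : ¬ P ∣ g := fun h' => hg0 ((hk g).2 h')
    have e1 : P ∣ (∏ j ∈ J, qB (c j)) * g ^ 2 - h ^ 2 := by
      rw [← hk]
      apply hinj
      rw [map_zero, map_sub, map_sub, sub_eq_zero, map_mul, map_mul, map_prod, map_prod, hy,
        map_pow, map_pow, map_pow, map_pow]
      field_simp
    obtain ⟨θ, hC, hX, hv, hker⟩ := branch hP (h0 i) (h1 i)
    have e2 : θ (∏ j ∈ J, qB (c j)) * θ g ^ 2 = θ h ^ 2 := by
      have := (hker _).2 e1
      rw [map_sub, map_mul, map_pow, map_pow, sub_eq_zero] at this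
      exact this
    have hgθ : θ g ≠ 0 := fun h' => hPg ((hker g).1 h')
    have e3 := congrArg PowerSeries.order e2
    rw [PowerSeries.order_mul, theta_order (P := P) hc h2 hC hX hv hi, pow_two, pow_two,
      PowerSeries.order_mul, PowerSeries.order_mul] at e3
    have hgf : (θ g).order ≠ ⊤ := fun h' => hgθ (PowerSeries.order_eq_top.1 h')
    have hhf : (θ h).order ≠ ⊤ := by
      intro h'
      rw [h'] at e3
      obtain ⟨n, hn⟩ := ENat.ne_top_iff_exists.1 hgf
      rw [← hn, top_add] at e3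
      exact absurd e3 (by exact_mod_cast ENat.coe_ne_top _)
    obtain ⟨n, hn⟩ := ENat.ne_top_iff_exists.1 hgf
    obtain ⟨k, hk'⟩ := ENat.ne_top_iff_exists.1 hhf
    rw [← hn, ← hk'] at e3
    have e4 : 1 + (n + n) = k + k := by exact_mod_cast e3
    omega
  have hz : ∀ i, ∃ z : Ω, z ^ 2 = algebraMap K Ω (algebraMap R K (π (qB (c i)))) := fun i =>
    IsAlgClosed.exists_pow_nat_eq _ two_pos
  choose z hz using hz
  intro hdvd
  set f : B →+* Ω := ((algebraMap K Ω).comp (algebraMap R K)).comp π with hf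
  have hNB := NB_map c a f z (fun i => hz i)
  have hN0 : f (NB c a) = 0 := by
    rw [hf, RingHom.comp_apply, (hk _).2 hdvd, map_zero]
  rw [hN0] at hNB
  obtain ⟨σ, -, hσ⟩ := Finset.prod_eq_zero_iff.1 hNB.symm
  have hind := sqrt_indep h2K (fun i => algebraMap R K (π (qB (c i)))) hsq z hz
    (fun I => algebraMap R K (π (C (C ((a I : ℝ) : ℂ)))) * ∏ i ∈ I, (if i ∈ σ then (-1 : K) else 1))
    (by
      rw [← hσ]
      refine Finset.sum_congr rfl fun I _ => ?_
      rw [map_mul, map_prod, mul_assoc, ← Finset.prod_mul_distrib]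
      congr 1
      refine Finset.prod_congr rfl fun i _ => ?_
      split_ifs
      · rw [map_neg, map_one, neg_one_mul]
      · rw [map_one, one_mul])
  apply ha
  funext I
  have h3 := congrFun hind I
  simp only [Pi.zero_apply] at h3
  rw [Pi.zero_apply]
  have h4 : (∏ i ∈ I, (if i ∈ σ then (-1 : K) else 1)) ≠ 0 := by
    refine Finset.prod_ne_zero_iff.2 fun i _ => ?_
    split_ifs
    · exact neg_ne_zero.2 one_ne_zero
    · exact one_ne_zero
  have h5 := (mul_eq_zero.1 h3).resolve_right h4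
  by_contra h6
  have h7 : π (C (C ((a I : ℝ) : ℂ))) = 0 := hinj (by rw [h5, map_zero])
  have h8 : π (C (C ((a I : ℝ) : ℂ))) * π (C (C (((a I : ℝ) : ℂ)⁻¹))) = 1 := by
    rw [← map_mul, ← C_mul, ← C_mul, mul_inv_cancel₀ (by exact_mod_cast h6), C_1, C_1, map_one]
  rw [h7, zero_mul] at h8
  exact zero_ne_one h8

theorem not_dvd {m : ℕ} {P : B} (hP : Irreducible P) {c : Fin m → ℂ} (hc : Function.Injective c)
    {v : Fin m → ℂ} (h0 : ∀ i, P.evalEval (c i) (v i) = 0)
    (h1 : ∀ i, (derivative P).evalEval (c i) (v i) ≠ 0) (h2 : ∀ i j, v i ≠ starRingEnd ℂ (c j))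
    {a : Finset (Fin m) → ℝ} (ha : a ≠ 0) : ¬ P ∣ NB c a := by
  have hprime : Prime P := hP.prime
  have hI : (Ideal.span {P} : Ideal B).IsPrime :=
    (Ideal.span_singleton_prime hprime.ne_zero).2 hprime
  have hdom : IsDomain (B ⧸ (Ideal.span {P} : Ideal B)) := Ideal.Quotient.isDomain _
  have hk : ∀ g : B, Ideal.Quotient.mk (Ideal.span {P}) g = 0 ↔ P ∣ g := fun g => by
    rw [Ideal.Quotient.eq_zero_iff_mem, Ideal.mem_span_singleton]
  have h2R : (2 : B ⧸ (Ideal.span {P} : Ideal B)) ≠ 0 := by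
    intro h
    have h3 : Ideal.Quotient.mk (Ideal.span {P}) (2 : B) = 0 := by rw [map_ofNat]; exact h
    have h4 : P ∣ (2 : B) := (hk 2).1 h3
    have h5 : IsUnit (2 : B) := by
      have : (2 : B) = C (C (2 : ℂ)) := by rw [map_ofNat, map_ofNat]
      rw [this]
      exact ((isUnit_iff_ne_zero.2 (two_ne_zero : (2 : ℂ) ≠ 0)).map C).map C
    exact hprime.not_unit (isUnit_of_dvd_unit h4 h5)
  have h2K : (2 : FractionRing (B ⧸ (Ideal.span {P} : Ideal B))) ≠ 0 := by
    intro h
    apply h2R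
    apply IsFractionRing.injective (B ⧸ (Ideal.span {P} : Ideal B))
      (FractionRing (B ⧸ (Ideal.span {P} : Ideal B)))
    rw [map_zero]
    exact (map_ofNat (algebraMap (B ⧸ (Ideal.span {P} : Ideal B))
      (FractionRing (B ⧸ (Ideal.span {P} : Ideal B)))) 2).trans h
  exact core (R := B ⧸ (Ideal.span {P} : Ideal B))
    (K := FractionRing (B ⧸ (Ideal.span {P} : Ideal B)))
    (Ω := AlgebraicClosure (FractionRing (B ⧸ (Ideal.span {P} : Ideal B)))) hP
    Ideal.Quotient.mk_surjective hk h2K hc h0 h1 h2 ha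

/-- The norm polynomial is not zero. -/
theorem NB_ne_zero {m : ℕ} {c : Fin m → ℂ} (hc : Function.Injective c)
    {a : Finset (Fin m) → ℝ} (ha : a ≠ 0) : NB c a ≠ 0 := by
  obtain ⟨v₀, hv₀⟩ := (Set.toFinite (Set.range fun j => starRingEnd ℂ (c j))).exists_notMem
  have h := not_dvd (P := X - C (C v₀)) (prime_X_sub_C (C v₀)).irreducible hc
    (v := fun _ => v₀) (fun i => by simp [evalEval]) (fun i => by simp [evalEval])
    (fun i j hj => hv₀ ⟨j, hj.symm⟩) ha
  intro h0
  rw [h0] at h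
  exact h (dvd_zero _)

end Pool.Agent.EUP
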