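import Mathlib

/-!
Numerics2: two numerical inequalities.

`numerics2`: `L' = 40 L`, `k = 2 log₂ L' + 2`: `2^k > L'^2` (`2^(log₂ L') ≤ L' < 2^(log₂ L' + 1)`), and `k = O(log L')`; see
`EUD/Numerics.lean` for similar estimates (there `c0` is fixed, here `c0 = L'`).
-/

namespace Pool.Agent.EUP

private theorem num_log (K : ℕ) : ∀ L ≥ 2 ^ (8 * K), K * (2 * Nat.log 2 L + 2) ≤ L := by
  intro L hL
  have hL0 : L ≠ 0 := by
    have : 0 < 2 ^ (8 * K) := by positivity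
    omega
  have ha : 8 * K ≤ Nat.log 2 L := (Nat.le_log_iff_pow_le (by norm_num) hL0).2 hL
  have hpow : 2 ^ Nat.log 2 L ≤ L := Nat.pow_log_le_self 2 hL0
  refine le_trans ?_ hpow
  generalize Nat.log 2 L = a at ha
  obtain ⟨b, hb⟩ : ∃ b, b = a / 2 := ⟨_, rfl⟩
  have h1 : 2 * b ≤ a := by omega
  have h2 : a ≤ 2 * b + 1 := by omega
  have h3 : 4 * K ≤ b := by omega
  have h4 : b < 2 ^ b := Nat.lt_two_pow_self
  calc K * (2 * a + 2) ≤ K * (4 * (b + 1)) := Nat.mul_le_mul_left _ (by omega)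
    _ = (4 * K) * (b + 1) := by ring
    _ ≤ 2 ^ b * 2 ^ b := Nat.mul_le_mul (by omega) h4
    _ = 2 ^ (2 * b) := by rw [← pow_add]; congr 1; ring
    _ ≤ 2 ^ a := Nat.pow_le_pow_right (by norm_num) h1

theorem numerics2 : ∃ L₀ : ℕ, ∀ L' ≥ L₀, ∀ k, k = 2 * Nat.log 2 L' + 2 →
    4 * (2 * k) * (L' + 2 * L' + 1) ≤ 2 ^ k ∧
    1 + L' + (2 * k) * (3 * L' + L') < L' ^ 2 / 2 := by
  obtain ⟨K, hK⟩ : ∃ K, K = 64 := ⟨_, rfl⟩
  refine ⟨2 ^ (8 * K), ?_⟩
  intro L hL k hk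
  have hL0 : L ≠ 0 := by
    have : 0 < 2 ^ (8 * K) := by positivity
    omega
  have hKk : K * k ≤ L := by
    rw [hk]; exact num_log K L hL
  rw [hK] at hKk
  have hk2 : 2 ≤ k := by omega
  have hp : 2 ^ k = (2 * 2 ^ Nat.log 2 L) ^ 2 := by
    rw [hk, pow_add, pow_mul, mul_pow, ← pow_mul, ← pow_mul, mul_comm 2 (Nat.log 2 L)]
    ring
  have hlo : L + 1 ≤ 2 * 2 ^ Nat.log 2 L := by
    have h := Nat.lt_pow_succ_log_self (b := 2) (by norm_num) L
    rw [Nat.pow_succ] at h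
    omega
  have hk_lo : L ^ 2 ≤ 2 ^ k := by
    rw [hp]; exact Nat.pow_le_pow_left (by omega) 2
  have e3 : 128 ≤ L := by omega
  constructor
  · refine le_trans ?_ hk_lo
    calc 4 * (2 * k) * (L + 2 * L + 1) ≤ 4 * (2 * k) * (4 * L) :=
          Nat.mul_le_mul_left _ (by omega)
      _ = (32 * k) * L := by ring
      _ ≤ L * L := Nat.mul_le_mul_right _ (by omega)
      _ = L ^ 2 := by ring
  · have h1 : 8 * ((2 * k) * (3 * L + L)) ≤ L ^ 2 := by
      calc 8 * ((2 * k) * (3 * L + L)) = (64 * k) * L := by ring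
        _ ≤ L * L := Nat.mul_le_mul_right _ hKk
        _ = L ^ 2 := by ring
    have h2 : 128 * L ≤ L ^ 2 := by
      rw [sq]; exact Nat.mul_le_mul_right _ e3
    generalize (2 * k) * (3 * L + L) = a at h1
    generalize L ^ 2 = X at h1 h2
    omega

end Pool.Agent.EUP
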