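import Pool.Agent.EUP.DegLem

/-!
Quadric: curves of degree `≤ 1` in `u` and `v`; the conjugate curve; curves of degree `0` in one variable.

`quadric`: `P = α u v + β u + γ v + δ`, not all zero; the equation `α |w|^2 + β w + γ conj w + δ = 0` has a real part and an
imaginary part, each of the form `A |w|^2 + B x + C y + D = 0` (`w = x + i y`, real coefficients), not both identically zero.  The zero
set of one nonzero equation of this form is contained in a line or circle: `A ≠ 0`: a circle, one point or empty (a point or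
the empty set is contained in some line); `A = 0`, `(B, C) ≠ 0`: a line; `A = B = C = 0`, `D ≠ 0`: empty.
`conj_curve`: `Q = swap (P.map (mapRingHom (starRingEnd ℂ)))`; `rv Q w = conj (rv P w)` (`Q(w, conj w) = conj (P (w, conj w))` because the
two variables are exchanged); `swap` and coefficientwise conjugation are ring isomorphisms.
`one_point`: if `P.natDegree = 0` then `P = C p`, `p ∈ ℂ[X]` irreducible, so `p` is linear; if `(swap P).natDegree = 0` then
`swap P = C p`, `rv P w = p.eval (conj w)`.
-/

namespace Pool.Agent.EUP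

open Polynomial

/-- Coefficients of the exchanged polynomial. -/
theorem coeff_coeff_swap (P : B) (n m : ℕ) :
    ((Bivariate.swap P).coeff n).coeff m = (P.coeff m).coeff n := by
  induction P using Polynomial.induction_on' with
  | add p q hp hq => simp only [map_add, coeff_add, hp, hq]
  | monomial k a =>
    induction a using Polynomial.induction_on' with
    | add p q hp hq => simp only [map_add, coeff_add, hp, hq]
    | monomial l r =>
      rw [Bivariate.swap_monomial_monomial]
      simp only [coeff_monomial]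
      by_cases h1 : l = n <;> by_cases h2 : k = m <;> simp [h1, h2, coeff_monomial]

/-- Coefficientwise ring homomorphisms commute with the exchange of the variables. -/
theorem swap_map (f : ℂ →+* ℂ) (P : B) :
    Bivariate.swap (P.map (mapRingHom f)) = (Bivariate.swap P).map (mapRingHom f) := by
  ext n m
  rw [coeff_coeff_swap, coeff_map, coeff_map, coe_mapRingHom, coeff_map, coeff_map,
    coeff_coeff_swap]

/-- Value of the exchanged polynomial. -/
theorem evalEval_swap (P : B) (x y : ℂ) :
    (Bivariate.swap P).evalEval x y = P.evalEval y x := by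
  have h := Bivariate.aevalAeval_swap (R := ℂ) (A := ℂ) x y P
  rwa [coe_aevalAeval_eq_evalEval, coe_aevalAeval_eq_evalEval] at h

/-- The real quadratic equation `A |w|^2 + Re (B w) + D = 0`. -/
theorem real_quadric (A D : ℝ) (β : ℂ) (h : A ≠ 0 ∨ β ≠ 0 ∨ D ≠ 0) :
    ∃ Γ : Set ℂ, LineOrCircle Γ ∧ ∀ w : ℂ, A * Complex.normSq w + (β * w).re + D = 0 → w ∈ Γ := by
  by_cases hA : A = 0
  · by_cases hb : β = 0
    · have hD : D ≠ 0 := by
        rcases h with h | h | h
        · exact absurd hA h
        · exact absurd hb h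
        · exact h
      refine ⟨{w | ∃ s : ℝ, w = 0 + s * 1}, Or.inl ⟨0, 1, one_ne_zero, rfl⟩, ?_⟩
      intro w hw
      subst hA hb
      exfalso
      apply hD
      simpa using hw
    · refine ⟨{w | ∃ s : ℝ, w = -(D : ℂ) / β + s * (Complex.I / β)},
        Or.inl ⟨-(D : ℂ) / β, Complex.I / β, div_ne_zero Complex.I_ne_zero hb, rfl⟩, ?_⟩
      intro w hw
      refine ⟨(β * w).im, ?_⟩
      subst hA
      have h1 : (β * w).re = -D := by linarith
      have h2 : β * w = -(D : ℂ) + (β * w).im * Complex.I := by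
        conv_lhs => rw [← Complex.re_add_im (β * w)]
        rw [h1]
        push_cast
        ring
      field_simp
      rw [mul_comm w β, h2]
      simp
  · set z : ℂ := -(starRingEnd ℂ β) / (2 * (A : ℂ)) with hz
    set ρ : ℝ := Complex.normSq β / (4 * A ^ 2) - D / A with hρ
    have key : ∀ w : ℂ, A * Complex.normSq w + (β * w).re + D = 0 → Complex.normSq (w - z) = ρ := by
      intro w hw
      have hz2 : z = ⟨-β.re / (2 * A), β.im / (2 * A)⟩ := by
        rw [hz]
        have h2A : (2 * (A : ℂ)) = ((2 * A : ℝ) : ℂ) := by push_cast; ring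
        rw [h2A]
        apply Complex.ext
        · rw [Complex.div_ofReal_re]
          simp
        · rw [Complex.div_ofReal_im]
          simp
      have hw' : A * (w.re * w.re + w.im * w.im) + (β.re * w.re - β.im * w.im) + D = 0 := by
        simpa [Complex.normSq_apply] using hw
      rw [hρ, hz2, Complex.normSq_apply, Complex.normSq_apply]
      simp only [Complex.sub_re, Complex.sub_im]
      field_simp
      linear_combination (16 * A) * hw'
    by_cases hr : 0 < ρ
    · refine ⟨Metric.sphere z (Real.sqrt ρ), Or.inr ⟨z, Real.sqrt ρ, Real.sqrt_pos.mpr hr, rfl⟩, ?_⟩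
      intro w hw
      rw [mem_sphere_iff_norm, ← Real.sqrt_sq (norm_nonneg (w - z)), ← Complex.normSq_eq_norm_sq,
        key w hw]
    · refine ⟨{w | ∃ s : ℝ, w = z + s * 1}, Or.inl ⟨z, 1, one_ne_zero, rfl⟩, ?_⟩
      intro w hw
      have h1 := key w hw
      have h2 : Complex.normSq (w - z) = 0 :=
        le_antisymm (h1 ▸ not_lt.mp hr) (Complex.normSq_nonneg _)
      have h3 : w - z = 0 := Complex.normSq_eq_zero.mp h2
      exact ⟨0, by rw [sub_eq_zero.mp h3]; simp⟩

/-- The complex equation `α |w|^2 + β w + γ conj w + δ = 0`. -/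
theorem complex_quadric (α β γ δ : ℂ) (h : ¬ (α = 0 ∧ β = 0 ∧ γ = 0 ∧ δ = 0)) :
    ∃ Γ : Set ℂ, LineOrCircle Γ ∧ ∀ w : ℂ,
      α * (w * starRingEnd ℂ w) + β * w + γ * starRingEnd ℂ w + δ = 0 → w ∈ Γ := by
  by_cases h1 : α.re ≠ 0 ∨ β + starRingEnd ℂ γ ≠ 0 ∨ δ.re ≠ 0
  · obtain ⟨Γ, hΓ, hw⟩ := real_quadric α.re δ.re (β + starRingEnd ℂ γ) h1
    refine ⟨Γ, hΓ, fun w h0 => hw w ?_⟩
    have h2 := congrArg Complex.re h0
    simp [Complex.normSq_apply] at h2 ⊢
    linarith
  · by_cases h2 : α.im ≠ 0 ∨ -Complex.I * (β - starRingEnd ℂ γ) ≠ 0 ∨ δ.im ≠ 0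
    · obtain ⟨Γ, hΓ, hw⟩ := real_quadric α.im δ.im (-Complex.I * (β - starRingEnd ℂ γ)) h2
      refine ⟨Γ, hΓ, fun w h0 => hw w ?_⟩
      have h3 := congrArg Complex.im h0
      simp [Complex.normSq_apply] at h3 ⊢
      linarith
    · exfalso
      push Not at h1 h2
      obtain ⟨a1, b1, c1⟩ := h1
      obtain ⟨a2, b2, c2⟩ := h2
      have b3 : β - starRingEnd ℂ γ = 0 := by
        rcases mul_eq_zero.mp b2 with h | h
        · exact absurd h (neg_ne_zero.mpr Complex.I_ne_zero)
        · exact h
      have hb : β = 0 := by linear_combination (b1 + b3) / 2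
      have hg : starRingEnd ℂ γ = 0 := by linear_combination (b1 - b3) / 2
      apply h
      refine ⟨Complex.ext a1 a2, hb, ?_, Complex.ext c1 c2⟩
      exact (map_eq_zero _).mp hg

theorem quadric {P : B} (hP : P ≠ 0) (h1 : P.natDegree ≤ 1) (h2 : (Bivariate.swap P).natDegree ≤ 1) :
    ∃ Γ : Set ℂ, LineOrCircle Γ ∧ ∀ w, rv P w = 0 → w ∈ Γ := by
  have hdeg : ∀ m, (P.coeff m).natDegree ≤ 1 := by
    intro m
    rw [natDegree_le_iff_coeff_eq_zero]
    intro n hn
    rw [← coeff_coeff_swap, coeff_eq_zero_of_natDegree_lt (lt_of_le_of_lt h2 hn), coeff_zero]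
  have hP' : P = C (P.coeff 1) * X + C (P.coeff 0) := eq_X_add_C_of_natDegree_le_one h1
  have ha := eq_X_add_C_of_natDegree_le_one (hdeg 1)
  have hb := eq_X_add_C_of_natDegree_le_one (hdeg 0)
  obtain ⟨Γ, hΓ, hw⟩ := complex_quadric ((P.coeff 1).coeff 1) ((P.coeff 0).coeff 1)
    ((P.coeff 1).coeff 0) ((P.coeff 0).coeff 0) (by
      rintro ⟨e1, e2, e3, e4⟩
      apply hP
      rw [hP', ha, hb, e1, e2, e3, e4]
      simp)
  refine ⟨Γ, hΓ, fun w h0 => hw w ?_⟩
  rw [← h0, rv]
  conv_rhs => rw [hP', ha, hb]
  simp only [evalEval_add, evalEval_mul, evalEval_C, evalEval_X, eval_add, eval_mul, eval_C, eval_X]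
  ring

theorem conj_curve {P : B} (hP : Irreducible P) : ∃ Q : B, Irreducible Q ∧
    Q.natDegree = (Bivariate.swap P).natDegree ∧ (Bivariate.swap Q).natDegree = P.natDegree ∧
    ∀ w, rv Q w = 0 ↔ rv P w = 0 := by
  have hinj : Function.Injective (mapRingHom (starRingEnd ℂ)) :=
    map_injective _ (starRingEnd ℂ).injective
  refine ⟨Bivariate.swap (P.map (mapRingHom (starRingEnd ℂ))), ?_, ?_, ?_, ?_⟩
  · rw [MulEquiv.irreducible_iff (Bivariate.swap (R := ℂ))]
    have e : P.map (mapRingHom (starRingEnd ℂ)) =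
        mapEquiv (mapEquiv (starRingAut (R := ℂ))) P := by
      ext n m
      simp
    rw [e, MulEquiv.irreducible_iff]
    exact hP
  · rw [swap_map, natDegree_map_eq_of_injective hinj]
  · rw [Bivariate.swap_swap_apply, natDegree_map_eq_of_injective hinj]
  · intro w
    have h : rv (Bivariate.swap (P.map (mapRingHom (starRingEnd ℂ)))) w = starRingEnd ℂ (rv P w) := by
      rw [rv, evalEval_swap, rv, ← map_mapRingHom_evalEval, Complex.conj_conj]
    rw [h]
    exact map_eq_zero _

theorem one_point_aux {p : Polynomial ℂ} (hp : Irreducible (C p : B)) :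
    {w : ℂ | p.eval w = 0}.Subsingleton := by
  have hp' : Irreducible p := by
    refine ⟨fun h => hp.1 (h.map C), fun a b hab => ?_⟩
    have := hp.2 (a := C a) (b := C b) (by rw [hab, C_mul])
    rcases this with h | h
    · left; exact isUnit_C.mp h
    · right; exact isUnit_C.mp h
  have hd : p.degree = 1 := IsAlgClosed.degree_eq_one_of_irreducible ℂ hp'
  intro x hx y hy
  have hx' : p.eval x = 0 := hx
  have hy' : p.eval y = 0 := hy
  have hn : p.natDegree ≤ 1 := (natDegree_eq_of_degree_eq_some hd).le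
  have e := eq_X_add_C_of_natDegree_le_one hn
  have hc : p.coeff 1 ≠ 0 := coeff_ne_zero_of_eq_degree hd
  rw [e] at hx' hy'
  simp at hx' hy'
  have : p.coeff 1 * (x - y) = 0 := by linear_combination hx' - hy'
  rcases mul_eq_zero.mp this with h | h
  · exact absurd h hc
  · exact sub_eq_zero.mp h

theorem one_point {P : B} (hP : Irreducible P)
    (h : P.natDegree = 0 ∨ (Bivariate.swap P).natDegree = 0) : {w : ℂ | rv P w = 0}.Subsingleton := by
  rcases h with h | h
  · rw [natDegree_eq_zero] at h
    obtain ⟨p, rfl⟩ := h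
    intro x hx y hy
    refine one_point_aux hP ?_ ?_
    · have : rv (C p) x = 0 := hx
      rwa [rv, evalEval_C] at this
    · have : rv (C p) y = 0 := hy
      rwa [rv, evalEval_C] at this
  · rw [natDegree_eq_zero] at h
    obtain ⟨p, hp⟩ := h
    have hP' : Irreducible (C p : B) := by
      rw [hp, MulEquiv.irreducible_iff (Bivariate.swap (R := ℂ))]
      exact hP
    have hv : ∀ w, rv P w = p.eval (starRingEnd ℂ w) := by
      intro w
      rw [rv, ← evalEval_swap, ← hp, evalEval_C]
    intro x hx y hy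
    have hx' : rv P x = 0 := hx
    have hy' : rv P y = 0 := hy
    rw [hv] at hx' hy'
    have := one_point_aux hP' hx' hy'
    exact (starRingEnd ℂ).injective this

end Pool.Agent.EUP
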