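import Pool.Agent.EUP.Frame
import Pool.Agent.EUD.ClassZero
import Pool.Agent.EUD.Primes
import Pool.Agent.EUP.Numerics2

/-!
Relations: the points of `W` fall into few classes with linear relations.

`relations`.  PROOF.  `frame` gives `A, G, X`.  For `w ∈ W` let `d w ≤ 2^L'` be a denominator of `X w`, `x w = X w`, and for `i`:
`z w i = G |w - c i|`, a rational number (`DistHt`), `(z w i)^2 = qf A (X w - X (c i))`, `|z w i| ≤ 2^(8L) 2^L ≤ 2^L'`.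
For every `w ∈ W` different from all `c i` (so `X w ≠ X (c i)`) `EUD.exists_good` (with `c0 = L'`, `m = 2 k`) gives a prime `p ≤ L'^2` with
`Good p (d w) (X w) dc (z w)`.  For each pair (prime `p ≤ L'^2`, label `ℓ`) let `Y p ℓ` be the set of all such points with
`label p (X w) (z w) = ℓ`; by `EUD.class_zero` (`c0 = L'`) and `EUD.exists_relation` (as in `EUD/ClassPoly.lean`) there is a nonzero rational
vector `a` with `∑_I a I ∏_{i ∈ I} z w i = 0` for all `w ∈ Y p ℓ`.  Then `a' I = a I * G^(card I)` (real) is nonzero and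
`∑_I a' I ∏_{i ∈ I} dist w (c i) = 0`.  `F` is the set of these `a'`: at most `L'^2 * ((L'^2)^2 * 2^m)` elements (labels:
`(Fin 2 → ZMod p) × (Fin m → Bool)` has `p^2 2^m` elements).  See `EUD/Core.lean` for the bookkeeping.
-/

namespace Pool.Agent.EUP

open EUD in
/-- one class -/
private theorem one_class {L k G : ℕ} (hG : 0 < G) (hk : 1 ≤ k)
    {A : Matrix (Fin 2) (Fin 2) ℤ} {X : ℂ → Fin 2 → ℚ} {c : Fin (2 * k) → ℂ}
    {d : ℂ → ℕ} {W : Set ℂ} (hcW : ∀ i, c i ∈ W)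
    (hd : ∀ w ∈ W, 0 < d w ∧ d w ≤ 2 ^ L)
    (hX : ∀ w ∈ W, ∀ j, ∃ a : ℤ, (d w : ℚ) * X w j = a)
    (z : ℂ → Fin (2 * k) → ℚ) (hz : ∀ w ∈ W, ∀ i, z w i ^ 2 = qf A (fun j => X w j - X (c i) j))
    (hzb : ∀ w ∈ W, ∀ i, |z w i| ≤ 2 ^ L)
    (hzd : ∀ w ∈ W, ∀ i, (z w i : ℝ) = G * dist w (c i))
    (hL : 4 * (2 * k) * (L + 2 * L + 1) ≤ 2 ^ k) {p : ℕ} [Fact p.Prime]
    (l : (Fin 2 → ZMod p) × (Fin (2 * k) → Bool)) :
    ∃ a : Finset (Fin (2 * k)) → ℝ, a ≠ 0 ∧ ∀ w ∈ W,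
      Good p (d w) (X w) (fun i => d (c i)) (z w) → label p (X w) (z w) = l →
      ∑ I : Finset (Fin (2 * k)), a I * ∏ i ∈ I, dist w (c i) = 0 := by
  classical
  obtain ⟨a, ha0, ha⟩ := exists_relation (K := ℚ) (ι := Finset (Fin (2 * k)))
    {v | ∃ w ∈ {w ∈ W | Good p (d w) (X w) (fun i => d (c i)) (z w) ∧ label p (X w) (z w) = l},
      v = fun I => ∏ i ∈ I, z w i} (by
      intro f hf
      choose x hxY hfx using hf
      have h1 := class_zero (p := p) (L := L) (c0 := L) (n := 2) (by norm_num) hk A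
        (fun i => X (c i)) (fun i => d (c i)) (fun i => hd _ (hcW i)) (fun i j => hX _ (hcW i) j)
        (fun s => X (x s)) (fun s => d (x s)) (fun s => hd _ (hxY s).1) (fun s => z (x s))
        (fun s i => hz _ (hxY s).1 i) (fun s i => hzb _ (hxY s).1 i) (fun s => (hxY s).2.1)
        (fun s s' => (hxY s).2.2.trans (hxY s').2.2.symm) hL
      have h2 : (Matrix.of fun I s => f s I) =
          (Matrix.of fun (I s : Finset (Fin (2 * k))) => ∏ i ∈ I, z (x s) i) := by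
        ext I s
        simp [hfx s]
      rw [h2]
      exact h1)
  have hG' : (G : ℝ) ≠ 0 := by exact_mod_cast hG.ne'
  refine ⟨fun I => (a I : ℝ) * (G : ℝ) ^ I.card, ?_, ?_⟩
  · intro h
    apply ha0
    funext I
    have h3 := congrFun h I
    simp only [Pi.zero_apply, mul_eq_zero, pow_eq_zero_iff', hG', false_and, or_false] at h3
    exact_mod_cast h3
  · intro w hw hg hl
    have h6 := ha _ ⟨w, ⟨hw, hg, hl⟩, rfl⟩
    have h7 : ((∑ I, a I * ∏ i ∈ I, z w i : ℚ) : ℝ) = 0 := by rw [h6]; simp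
    push_cast at h7
    rw [← h7]
    refine Finset.sum_congr rfl fun I _ => ?_
    rw [mul_assoc]
    congr 1
    rw [Finset.prod_congr rfl fun i _ => hzd w hw i, Finset.prod_mul_distrib, Finset.prod_const]

open EUD in
/-- one prime -/
private theorem one_prime {L k G : ℕ} (hG : 0 < G) (hk : 1 ≤ k)
    {A : Matrix (Fin 2) (Fin 2) ℤ} {X : ℂ → Fin 2 → ℚ} {c : Fin (2 * k) → ℂ}
    {d : ℂ → ℕ} {W : Set ℂ} (hcW : ∀ i, c i ∈ W)
    (hd : ∀ w ∈ W, 0 < d w ∧ d w ≤ 2 ^ L)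
    (hX : ∀ w ∈ W, ∀ j, ∃ a : ℤ, (d w : ℚ) * X w j = a)
    (z : ℂ → Fin (2 * k) → ℚ) (hz : ∀ w ∈ W, ∀ i, z w i ^ 2 = qf A (fun j => X w j - X (c i) j))
    (hzb : ∀ w ∈ W, ∀ i, |z w i| ≤ 2 ^ L)
    (hzd : ∀ w ∈ W, ∀ i, (z w i : ℝ) = G * dist w (c i))
    (hL : 4 * (2 * k) * (L + 2 * L + 1) ≤ 2 ^ k) (p : ℕ) :
    ∃ F : Finset (Finset (Fin (2 * k)) → ℝ), F.card ≤ (L ^ 2) ^ 2 * 2 ^ (2 * k) ∧
      (∀ a ∈ F, a ≠ 0) ∧ (p.Prime → p ≤ L ^ 2 → ∀ w ∈ W,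
        Good p (d w) (X w) (fun i => d (c i)) (z w) →
        ∃ a ∈ F, ∑ I : Finset (Fin (2 * k)), a I * ∏ i ∈ I, dist w (c i) = 0) := by
  classical
  by_cases hp : p.Prime ∧ p ≤ L ^ 2
  · obtain ⟨hp, hpL⟩ := hp
    haveI : Fact p.Prime := ⟨hp⟩
    choose a ha0 ha using fun l : (Fin 2 → ZMod p) × (Fin (2 * k) → Bool) =>
      one_class hG hk hcW hd hX z hz hzb hzd hL (p := p) l
    refine ⟨Finset.univ.image a, ?_, ?_, ?_⟩
    · refine Finset.card_image_le.trans ?_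
      rw [Finset.card_univ, Fintype.card_prod, Fintype.card_fun, Fintype.card_fun, ZMod.card,
        Fintype.card_bool, Fintype.card_fin, Fintype.card_fin]
      exact Nat.mul_le_mul_right _ (Nat.pow_le_pow_left hpL 2)
    · intro b hb
      obtain ⟨l, -, rfl⟩ := Finset.mem_image.1 hb
      exact ha0 l
    · intro _ _ w hw hg
      exact ⟨a (label p (X w) (z w)), Finset.mem_image.2 ⟨_, Finset.mem_univ _, rfl⟩,
        ha _ w hw hg rfl⟩
  · refine ⟨∅, by simp, by simp, fun h1 h2 => absurd ⟨h1, h2⟩ hp⟩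

open EUD in
theorem relations : ∃ L₀ : ℕ, ∀ L ≥ L₀, ∀ W : Set ℂ, DistHt (2 ^ L) W → ¬ Collinear ℝ W →
    ∀ k, k = 2 * Nat.log 2 (40 * L) + 2 → ∀ c : Fin (2 * k) → ℂ, Function.Injective c →
      (∀ i, c i ∈ W) → ∃ F : Finset (Finset (Fin (2 * k)) → ℝ),
        F.card ≤ (40 * L) ^ 2 * (((40 * L) ^ 2) ^ 2 * 2 ^ (2 * k)) ∧ (∀ a ∈ F, a ≠ 0) ∧
        ∀ w ∈ W, (∀ i, w ≠ c i) →
          ∃ a ∈ F, ∑ I : Finset (Fin (2 * k)), a I * ∏ i ∈ I, dist w (c i) = 0 := by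
  classical
  obtain ⟨L1, hL1⟩ := numerics2
  obtain ⟨L2, hL2⟩ := exists_good
  refine ⟨max (max L1 L2) 1, fun L hL W hW hnc k hk c hci hcW => ?_⟩
  have hLL1 : L1 ≤ 40 * L := by
    have : L1 ≤ L := ((le_max_left _ _).trans (le_max_left _ _)).trans hL
    omega
  have hLL2 : L2 ≤ 40 * L := by
    have : L2 ≤ L := ((le_max_right _ _).trans (le_max_left _ _)).trans hL
    omega
  have hLone : 1 ≤ L := (le_max_right _ _).trans hL
  obtain ⟨hn1, hn2⟩ := hL1 (40 * L) hLL1 k hk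
  obtain ⟨A, G, X, hA, hG, hGle, hHt, hdist, hinj⟩ := frame hLone hW hnc
  have hHt' : ∀ w ∈ W, ∃ d : ℕ, 0 < d ∧ d ≤ 2 ^ (40 * L) ∧
      ∀ j, ∃ a : ℤ, (d : ℚ) * X w j = a := hHt
  choose! d hd0 hd1 hd2 using hHt'
  have hr : ∀ w ∈ W, ∀ w' ∈ W, ∃ r : ℚ, (r : ℝ) = G * dist w w' ∧ |r| ≤ 2 ^ (40 * L) := by
    intro w hw w' hw'
    obtain ⟨a, b, ha, hb0, hb, hab⟩ := hW w hw w' hw'
    refine ⟨(G : ℚ) * ((a : ℚ) / b), ?_, ?_⟩
    · have hb' : (b : ℝ) ≠ 0 := by exact_mod_cast hb0.ne'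
      push_cast
      rw [← hab]
      field_simp
    · rw [abs_of_nonneg (by positivity)]
      have h1 : (G : ℚ) ≤ 2 ^ (8 * L) := by exact_mod_cast hGle
      have h2 : (a : ℚ) / b ≤ 2 ^ L := by
        have h3 : (1 : ℚ) ≤ b := by exact_mod_cast hb0
        have h4 : (a : ℚ) ≤ 2 ^ L := by exact_mod_cast ha
        exact (div_le_self (by positivity) h3).trans h4
      calc (G : ℚ) * ((a : ℚ) / b) ≤ 2 ^ (8 * L) * 2 ^ L :=
            mul_le_mul h1 h2 (by positivity) (by positivity)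
        _ = 2 ^ (9 * L) := by rw [← pow_add]; congr 1; ring
        _ ≤ 2 ^ (40 * L) := pow_le_pow_right₀ (by norm_num) (by omega)
  choose! r hr1 hr2 using hr
  have hrz : ∀ w ∈ W, ∀ w' ∈ W, r w w' ^ 2 = qf A (fun j => X w j - X w' j) := by
    intro w hw w' hw'
    have h1 := hdist w hw w' hw'
    rw [← hr1 w hw w' hw'] at h1
    exact_mod_cast h1
  have hp := one_prime (L := 40 * L) hG (by omega : 1 ≤ k) (A := A) (X := X) (c := c) (d := d)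
    (W := W) hcW (fun w hw => ⟨hd0 w hw, hd1 w hw⟩) hd2 (fun w i => r w (c i))
    (fun w hw i => hrz w hw _ (hcW i)) (fun w hw i => hr2 w hw _ (hcW i))
    (fun w hw i => hr1 w hw _ (hcW i)) hn1
  choose F hF1 hF2 hF3 using hp
  refine ⟨(Finset.Icc 1 ((40 * L) ^ 2)).biUnion F, ?_, ?_, ?_⟩
  · refine (Finset.card_biUnion_le_card_mul _ _ _ fun p _ => hF1 p).trans ?_
    rw [Nat.card_Icc, Nat.add_sub_cancel]
  · intro a ha
    obtain ⟨p, -, hap⟩ := Finset.mem_biUnion.1 ha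
    exact hF2 p a hap
  · intro w hw hwc
    obtain ⟨p, hp, hpL, hg⟩ := hL2 (40 * L) hLL2 hA (c := fun i => X (c i))
      (dc := fun i => d (c i)) (c0 := 40 * L)
      (fun i => ⟨hd0 _ (hcW i), hd1 _ (hcW i)⟩) (fun i j => hd2 _ (hcW i) j) (hd0 w hw)
      (hd1 w hw) (hd2 w hw) (z := fun i => r w (c i)) (fun i => hrz w hw _ (hcW i))
      (fun i => hr2 w hw _ (hcW i)) (fun i h => hwc i (hinj hw (hcW i) h)) hn2
    obtain ⟨a, ha, hsum⟩ := hF3 p hp hpL w hw hg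
    exact ⟨a, Finset.mem_biUnion.2 ⟨p, Finset.mem_Icc.2 ⟨hp.one_le, hpL⟩, ha⟩, hsum⟩

end Pool.Agent.EUP
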