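import Pool.Agent.EUP.CommonZeros

/-!
Select: choice of base points for a curve.

PROOF.  `Bad` = the set of `u ∈ ℂ` with `leadingCoeff P (u) = 0` (at most `d` values, `coeff_natDegree_le`) or such that `P(u, ·)` and
`∂_v P(u, ·)` have a common root (`common_zeros` for `P` and `derivative P`, which is not divisible by `P` because its degree
in `v` is smaller and it is not zero, characteristic 0; `Deg d (derivative P)`): at most `2 d^2 + 1` values.
For `u ∉ Bad` the polynomial `P(u, ·)` has degree `P.natDegree` and only simple roots, so exactly `P.natDegree` different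
roots, all with `∂_v P ≠ 0`.
Choose `c 0, c 1, ...` successively in `S` such that `c s ∉ Bad`, `c s ≠ c i`, `P (c i, conj (c s)) ≠ 0` and
`P (c s, conj (c i)) ≠ 0` for all `i < s`.  For given `i < s` the polynomial `P(c i, ·)` is not zero (`c i ∉ Bad`), so it excludes at
most `d` points; the polynomial `P(·, conj (c i))` is not zero (otherwise `X - C (C (conj (c i))) ∣ P`, so `P` is associated to it and
`(swap P).natDegree = 0`), so it excludes at most `d` points.  In total at most `2 d^2 + d + 1 + m + 2 m d < card S` points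
are excluded.  (Induction on the number of chosen points.)
Then for `i ≠ j` the point `(c i, conj (c j))` is not on the curve, so no root `v` of `P(c i, ·)` equals `conj (c j)`.  For `j = i`:
if no point of `S` is on the curve this holds as well, and any root of `P(c i, ·)` can be taken as `v i` (`P.natDegree ≥ 1`);
if `P.natDegree ≥ 2` there are two different roots and one of them is not `conj (c i)`.
-/

namespace Pool.Agent.EUP

open Polynomial

private theorem sel_swap_le {Q : B} {e : ℕ} (h : ∀ i, (Q.coeff i).natDegree ≤ e) :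
    (Bivariate.swap Q).natDegree ≤ e := by
  conv_lhs => rw [Q.as_sum_support]
  rw [map_sum]
  refine natDegree_sum_le_of_forall_le _ _ fun i _ => ?_
  rw [Bivariate.swap_monomial]
  refine (natDegree_mul_C_le _ _).trans ?_
  exact (natDegree_map_le).trans (h i)

private theorem sel_deriv_deg {P : B} {d : ℕ} (hd : Deg d P) : Deg d (derivative P) := by
  refine ⟨(natDegree_derivative_le P).trans ((Nat.sub_le _ _).trans hd.1), ?_⟩
  refine sel_swap_le fun i => ?_
  rw [coeff_derivative]
  have h1 : ((i : ℂ[X]) + 1) = C ((i : ℂ) + 1) := by simp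
  rw [h1]
  exact (natDegree_mul_C_le _ _).trans ((coeff_natDegree_le P (i + 1)).trans hd.2)

private theorem sel_deriv_ne {P : B} (hv : 1 ≤ P.natDegree) : ¬ P ∣ derivative P := by
  intro h
  have h0 : derivative P ≠ 0 := by
    intro h0
    have h1 := Polynomial.derivative_eq_zero.1 h0
    omega
  have h2 := natDegree_le_of_dvd h h0
  have h3 := natDegree_derivative_lt (p := P) (by omega)
  omega

/-- the excluded values -/
private def Bd (P : B) : Set ℂ := {u | P.leadingCoeff.eval u = 0} ∪
  {u : ℂ | ∃ v : ℂ, P.evalEval u v = 0 ∧ (derivative P).evalEval u v = 0}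

private theorem sel_lead {P : B} (hP : P ≠ 0) {d : ℕ} (hd : Deg d P) :
    {u : ℂ | P.leadingCoeff.eval u = 0}.Finite ∧
      {u : ℂ | P.leadingCoeff.eval u = 0}.ncard ≤ d := by
  classical
  have h0 : P.leadingCoeff ≠ 0 := leadingCoeff_ne_zero.2 hP
  have e : {u : ℂ | P.leadingCoeff.eval u = 0} = (P.leadingCoeff.roots.toFinset : Set ℂ) := by
    ext u
    simp [h0]
  rw [e]
  refine ⟨Finset.finite_toSet _, ?_⟩
  rw [Set.ncard_coe_finset]
  refine (Multiset.toFinset_card_le _).trans ((card_roots' _).trans ?_)
  exact (coeff_natDegree_le P P.natDegree).trans hd.2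

private theorem sel_bd {P : B} (hP : Irreducible P) {d : ℕ} (hd : Deg d P)
    (hv : 1 ≤ P.natDegree) : (Bd P).Finite ∧ (Bd P).ncard ≤ d + (2 * d * d + 1) := by
  obtain ⟨f1, n1⟩ := sel_lead hP.ne_zero hd
  obtain ⟨f2, n2⟩ := common_zeros hP (sel_deriv_ne hv) hd (sel_deriv_deg hd)
  refine ⟨f1.union f2, (Set.ncard_union_le _ _).trans (Nat.add_le_add n1 n2)⟩

/-- values of the second coordinate -/
private theorem sel_col {P : B} {d : ℕ} (hd : Deg d P) {u : ℂ} (hu : u ∉ Bd P) :
    {s : ℂ | P.evalEval u (starRingEnd ℂ s) = 0}.Finite ∧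
      {s : ℂ | P.evalEval u (starRingEnd ℂ s) = 0}.ncard ≤ d := by
  classical
  have hl : P.leadingCoeff.eval u ≠ 0 := fun h => hu (Or.inl h)
  let p : ℂ[X] := P.map (evalRingHom u)
  have hp : p ≠ 0 := by
    intro h0
    have h1 : p.coeff P.natDegree = 0 := by rw [h0, coeff_zero]
    rw [coeff_map] at h1
    exact hl h1
  have e : {s : ℂ | P.evalEval u (starRingEnd ℂ s) = 0} =
      ((p.roots.toFinset.image (starRingEnd ℂ) : Finset ℂ) : Set ℂ) := by
    ext s
    rw [Set.mem_ofPred_eq, Finset.mem_coe, Finset.mem_image, ← map_evalRingHom_eval]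
    constructor
    · intro h
      exact ⟨starRingEnd ℂ s, by simpa [hp] using h, by simp⟩
    · rintro ⟨t, ht, rfl⟩
      have h1 : p.eval t = 0 := by simpa [hp] using ht
      simpa using h1
  rw [e]
  refine ⟨Finset.finite_toSet _, ?_⟩
  rw [Set.ncard_coe_finset]
  refine Finset.card_image_le.trans ((Multiset.toFinset_card_le _).trans ((card_roots' _).trans ?_))
  exact (natDegree_map_le).trans hd.1

private theorem sel_row {P : B} (hP : Irreducible P) {d : ℕ} (hd : Deg d P)
    (hu : 1 ≤ (Bivariate.swap P).natDegree) (w : ℂ) :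
    {s : ℂ | P.evalEval s w = 0}.Finite ∧ {s : ℂ | P.evalEval s w = 0}.ncard ≤ d := by
  classical
  let q : ℂ[X] := P.eval (C w)
  have hq : q ≠ 0 := by
    intro h0
    have h1 : (X - C (C w) : B) ∣ P := dvd_iff_isRoot.2 h0
    obtain ⟨g, hg⟩ := h1
    have h2 : ¬ IsUnit (X - C (C w) : B) := not_isUnit_X_sub_C _
    have h3 : IsUnit g := (hP.isUnit_or_isUnit hg).resolve_left h2
    have h4 : Bivariate.swap P = C (X - C w) * Bivariate.swap g := by
      rw [hg, map_mul]
      congr 1
      rw [map_sub, Bivariate.swap_Y, Bivariate.swap_C_C, C_sub]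
    have h5 : IsUnit (Bivariate.swap g) := h3.map _
    have h6 := natDegree_eq_zero_of_isUnit h5
    have h7 : (Bivariate.swap P).natDegree ≤ 0 := by
      rw [h4]
      exact (natDegree_C_mul_le _ _).trans h6.le
    omega
  have e : {s : ℂ | P.evalEval s w = 0} = (q.roots.toFinset : Set ℂ) := by
    ext s
    simp [q, hq, evalEval]
  rw [e]
  refine ⟨Finset.finite_toSet _, ?_⟩
  rw [Set.ncard_coe_finset]
  refine (Multiset.toFinset_card_le _).trans ((card_roots' _).trans ?_)
  show (P.eval (C w)).natDegree ≤ d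
  rw [eval_eq_sum_range]
  refine natDegree_sum_le_of_forall_le _ _ fun i _ => ?_
  rw [← C_pow]
  exact (natDegree_mul_C_le _ _).trans ((coeff_natDegree_le P i).trans hd.2)

/-- a point over `u` different from `w` -/
private theorem sel_root {P : B} {u : ℂ} (hu : u ∉ Bd P) (hv : 1 ≤ P.natDegree) (w : ℂ)
    (h : 2 ≤ P.natDegree ∨ P.evalEval u w ≠ 0) :
    ∃ v, P.evalEval u v = 0 ∧ v ≠ w := by
  classical
  have hl : P.leadingCoeff.eval u ≠ 0 := fun h => hu (Or.inl h)
  let p : ℂ[X] := P.map (evalRingHom u)
  have hdeg : p.natDegree = P.natDegree :=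
    natDegree_map_of_leadingCoeff_ne_zero _ hl
  have hp : p ≠ 0 := by
    intro h0
    rw [h0, natDegree_zero] at hdeg
    omega
  have hev : ∀ v, p.eval v = P.evalEval u v := fun v => map_evalRingHom_eval u v P
  have hev' : ∀ v, (derivative p).eval v = (derivative P).evalEval u v := by
    intro v
    rw [derivative_map]
    exact map_evalRingHom_eval u v _
  rcases h with h | h
  · have hc : p.roots.card = p.natDegree := IsAlgClosed.card_roots_eq_natDegree
    have hn : p.roots.Nodup := by
      rw [Multiset.nodup_iff_count_le_one]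
      intro a
      rw [count_roots]
      by_contra hlt
      have h1 : 1 < p.rootMultiplicity a := by omega
      obtain ⟨h2, h3⟩ := (one_lt_rootMultiplicity_iff_isRoot hp).1 h1
      refine hu (Or.inr ⟨a, ?_, ?_⟩)
      · rw [← hev]
        exact h2
      · rw [← hev']
        exact h3
    have h4 : 1 < p.roots.toFinset.card := by
      rw [Multiset.toFinset_card_of_nodup hn, hc, hdeg]
      omega
    obtain ⟨a, ha, b, hb, hab⟩ := Finset.one_lt_card.1 h4
    have ha' : P.evalEval u a = 0 := by
      rw [← hev]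
      simpa [hp] using ha
    have hb' : P.evalEval u b = 0 := by
      rw [← hev]
      simpa [hp] using hb
    by_cases haw : a = w
    · exact ⟨b, hb', fun h => hab (haw.trans h.symm)⟩
    · exact ⟨a, ha', haw⟩
  · have h1 : p.degree ≠ 0 := by
      intro h2
      have := natDegree_eq_of_degree_eq_some (n := 0) h2
      omega
    obtain ⟨v, hv'⟩ := IsAlgClosed.exists_root p h1
    have h2 : P.evalEval u v = 0 := by
      rw [← hev]
      exact hv'
    exact ⟨v, h2, fun h3 => h (h3 ▸ h2)⟩

private theorem sel_choose {P : B} (hP : Irreducible P) {d m : ℕ} (hd : Deg d P)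
    (hv : 1 ≤ P.natDegree) (hu : 1 ≤ (Bivariate.swap P).natDegree) (S : Finset ℂ)
    (hS : 2 * d ^ 2 + d + 1 + m + 2 * m * d < S.card) (j : ℕ) (hj : j ≤ m) :
    ∃ c : Fin j → ℂ, Function.Injective c ∧ (∀ i, c i ∈ S) ∧ (∀ i, c i ∉ Bd P) ∧
      ∀ i i', i ≠ i' → P.evalEval (c i) (starRingEnd ℂ (c i')) ≠ 0 := by
  classical
  induction j with
  | zero =>
    exact ⟨fun i => i.elim0, fun i => i.elim0, fun i => i.elim0, fun i => i.elim0,
      fun i => i.elim0⟩
  | succ j ih =>
    obtain ⟨c, hc, hcS, hcB, hcc⟩ := ih (by omega)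
    obtain ⟨fB, nB⟩ := sel_bd hP hd hv
    let E1 : Finset ℂ := fB.toFinset
    let E2 : Finset ℂ := Finset.univ.image c
    let E3 : Finset ℂ := Finset.univ.biUnion fun i : Fin j => (sel_col hd (hcB i)).1.toFinset
    let E4 : Finset ℂ := Finset.univ.biUnion fun i : Fin j =>
      (sel_row hP hd hu (starRingEnd ℂ (c i))).1.toFinset
    have c1 : E1.card ≤ d + (2 * d * d + 1) := by
      rw [← Set.ncard_eq_toFinset_card _ fB]
      exact nB
    have c2 : E2.card ≤ j := by
      refine Finset.card_image_le.trans ?_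
      rw [Finset.card_univ, Fintype.card_fin]
    have c3 : E3.card ≤ j * d := by
      refine (Finset.card_biUnion_le_card_mul _ _ d fun i _ => ?_).trans ?_
      · rw [← Set.ncard_eq_toFinset_card _ (sel_col hd (hcB i)).1]
        exact (sel_col hd (hcB i)).2
      · rw [Finset.card_univ, Fintype.card_fin]
    have c4 : E4.card ≤ j * d := by
      refine (Finset.card_biUnion_le_card_mul _ _ d fun i _ => ?_).trans ?_
      · rw [← Set.ncard_eq_toFinset_card _ (sel_row hP hd hu (starRingEnd ℂ (c i))).1]
        exact (sel_row hP hd hu (starRingEnd ℂ (c i))).2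
      · rw [Finset.card_univ, Fintype.card_fin]
    have c5 : (E1 ∪ E2 ∪ E3 ∪ E4).card < S.card := by
      have h1 := Finset.card_union_le (E1 ∪ E2 ∪ E3) E4
      have h2 := Finset.card_union_le (E1 ∪ E2) E3
      have h3 := Finset.card_union_le E1 E2
      have h4 : j * d ≤ m * d := Nat.mul_le_mul_right d (by omega)
      have h5 : 2 * d ^ 2 = 2 * d * d := by ring
      have h6 : 2 * m * d = m * d + m * d := by ring
      omega
    obtain ⟨s, hsS, hsE⟩ := Finset.exists_mem_notMem_of_card_lt_card c5
    simp only [Finset.mem_union, not_or] at hsE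
    obtain ⟨⟨⟨s1, s2⟩, s3⟩, s4⟩ := hsE
    have s1' : s ∉ Bd P := fun h => s1 (fB.mem_toFinset.2 h)
    have s2' : ∀ i, c i ≠ s := fun i h => s2 (Finset.mem_image.2 ⟨i, Finset.mem_univ _, h⟩)
    have s3' : ∀ i, P.evalEval (c i) (starRingEnd ℂ s) ≠ 0 := fun i h =>
      s3 (Finset.mem_biUnion.2 ⟨i, Finset.mem_univ _, (Set.Finite.mem_toFinset _).2 h⟩)
    have s4' : ∀ i, P.evalEval s (starRingEnd ℂ (c i)) ≠ 0 := fun i h =>
      s4 (Finset.mem_biUnion.2 ⟨i, Finset.mem_univ _, (Set.Finite.mem_toFinset _).2 h⟩)
    refine ⟨Fin.snoc c s, ?_, ?_, ?_, ?_⟩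
    · intro a b hab
      induction a using Fin.lastCases with
      | last =>
        induction b using Fin.lastCases with
        | last => rfl
        | cast b =>
          rw [Fin.snoc_last, Fin.snoc_castSucc] at hab
          exact absurd hab.symm (s2' b)
      | cast a =>
        induction b using Fin.lastCases with
        | last =>
          rw [Fin.snoc_last, Fin.snoc_castSucc] at hab
          exact absurd hab (s2' a)
        | cast b =>
          rw [Fin.snoc_castSucc, Fin.snoc_castSucc] at hab
          rw [hc hab]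
    · intro a
      induction a using Fin.lastCases with
      | last => rwa [Fin.snoc_last]
      | cast a => rw [Fin.snoc_castSucc]; exact hcS a
    · intro a
      induction a using Fin.lastCases with
      | last => rwa [Fin.snoc_last]
      | cast a => rw [Fin.snoc_castSucc]; exact hcB a
    · intro a b hab
      induction a using Fin.lastCases with
      | last =>
        induction b using Fin.lastCases with
        | last => exact absurd rfl hab
        | cast b =>
          rw [Fin.snoc_last, Fin.snoc_castSucc]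
          exact s4' b
      | cast a =>
        induction b using Fin.lastCases with
        | last =>
          rw [Fin.snoc_last, Fin.snoc_castSucc]
          exact s3' a
        | cast b =>
          rw [Fin.snoc_castSucc, Fin.snoc_castSucc]
          exact hcc a b (fun h => hab (by rw [h]))

theorem select {P : B} (hP : Irreducible P) {d m : ℕ} (hd : Deg d P) (hv : 1 ≤ P.natDegree)
    (hu : 1 ≤ (Bivariate.swap P).natDegree) (S : Finset ℂ)
    (hS : 2 * d ^ 2 + d + 1 + m + 2 * m * d < S.card)
    (hcase : 2 ≤ P.natDegree ∨ ∀ w ∈ S, rv P w ≠ 0) :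
    ∃ c : Fin m → ℂ, Function.Injective c ∧ (∀ i, c i ∈ S) ∧ ∃ v : Fin m → ℂ,
      (∀ i, P.evalEval (c i) (v i) = 0) ∧ (∀ i, (derivative P).evalEval (c i) (v i) ≠ 0) ∧
      ∀ i j, v i ≠ starRingEnd ℂ (c j) := by
  obtain ⟨c, hc, hcS, hcB, hcc⟩ := sel_choose hP hd hv hu S hS m le_rfl
  have h1 : ∀ i, ∃ v, P.evalEval (c i) v = 0 ∧ v ≠ starRingEnd ℂ (c i) := by
    intro i
    refine sel_root (hcB i) hv _ ?_
    rcases hcase with h | h
    · exact Or.inl h
    · exact Or.inr (h (c i) (hcS i))
  choose v hv1 hv2 using h1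
  refine ⟨c, hc, hcS, v, hv1, fun i h => hcB i (Or.inr ⟨v i, hv1 i, h⟩), ?_⟩
  intro i j
  by_cases hij : i = j
  · rw [← hij]
    exact hv2 i
  · intro h
    exact hcc i j hij (h ▸ hv1 i)

end Pool.Agent.EUP
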