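import Pool.Agent.EUP.Select
import Pool.Agent.EUP.CurveBound
import Pool.Agent.EUP.Quadric
import Pool.Agent.EUP.Relations

/-!
Struct: the structure theorem in `ℂ`, with explicit but unevaluated bound.

Notation: `m = 2 k`, `F₀ = (40 L)^2 (((40 L)^2)^2 2^m)`, `d = F₀ (m 2^m) + m`, `K₁ = 2 d^2 + d + 1 + m + 2 m d`,
`K₂ = m + F₀ (2 d (m 2^m) + 1)`, bound `bd L = K₁ + 1 + 2 d (K₂ + 1)`.

PROOF.  If `W` is collinear it is contained in a line.  Otherwise, if `W` is finite with at most `K₁ + 1` elements, any line will do.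
So let `W` be infinite or `ncard W > K₁ + 1 ≥ m`: there is an injective `c : Fin m → W`.  `relations` gives `F`.
`N = (∏ a ∈ F, NB c a) * ∏ i, qB (c i)`: nonzero (`NB_ne_zero`, `qB_ne_zero`), `Deg d` (`Deg_NB`, `Deg.prod`, `Deg_qB`), `rv N w = 0` for all
`w ∈ W` (`rv_NB`, `rv_qB`).  `factors`: irreducible `P ∈ Fs`, `Fs.card ≤ 2 d`, with `W ⊆ ⋃ {rv P = 0}`.
Claim: for `P ∈ Fs` either there is a line or circle `Γ` with `W \ Γ` finite and `ncard (W \ Γ) ≤ K₁`, or `W ∩ {rv P = 0}` is finite with at most `K₂ + 1`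
points.  If the first alternative never holds, `W` is finite with `≤ 2 d (K₂ + 1)` elements; take any line.
Proof of the claim: (1) one of the two degrees of `P` is `0`: at most one point (`one_point`).  (2) both degrees `≥ 1` and
`P.natDegree ≥ 2`: choose a finite `S ⊆ W` with `K₁ < S.card`; `select` (first case) gives `c'`, `v'`; `relations` for `c'` gives `F'`;
`curve_bound` for `Y = {w ∈ W | rv P w = 0 ∧ ∀ i, w ≠ c' i}`; the remaining points are the `c' i`: at most `m`.  (3) `P.natDegree = 1` and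
`(swap P).natDegree ≥ 2`: replace `P` by the conjugate curve (`conj_curve`).  (4) both degrees are `1`: `Γ` from `quadric`.  If
`{w ∈ W | rv P w ≠ 0}` is finite with at most `K₁` elements, then so is `W \ Γ`: first alternative.  Otherwise there is a finite
`S ⊆ {w ∈ W | rv P w ≠ 0}` with `K₁ < S.card`; `select` (second case), and continue as in (2).
-/

namespace Pool.Agent.EUP

/-- the number of relations -/
def F0 (L k : ℕ) : ℕ := (40 * L) ^ 2 * (((40 * L) ^ 2) ^ 2 * 2 ^ (2 * k))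

/-- the degree of the polynomial vanishing on all points -/
def d0 (L k : ℕ) : ℕ := F0 L k * ((2 * k) * 2 ^ (2 * k)) + 2 * k

/-- the number of points needed for the selection -/
def K1 (L k : ℕ) : ℕ := 2 * d0 L k ^ 2 + d0 L k + 1 + 2 * k + 2 * (2 * k) * d0 L k

/-- the number of points on one curve -/
def K2 (L k : ℕ) : ℕ := 2 * k + F0 L k * (2 * d0 L k * ((2 * k) * 2 ^ (2 * k)) + 1)

/-- the final bound -/
def bd (L k : ℕ) : ℕ := K1 L k + 1 + 2 * d0 L k * (K2 L k + 1)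

/-- one curve (cases 2 and 4) -/
theorem one_curve : ∃ L₀ : ℕ, ∀ L ≥ L₀, ∀ W : Set ℂ, DistHt (2 ^ L) W → ¬ Collinear ℝ W →
    ∀ k, k = 2 * Nat.log 2 (40 * L) + 2 → ∀ P : B, Irreducible P → Deg (d0 L k) P →
      1 ≤ P.natDegree → 1 ≤ (Polynomial.Bivariate.swap P).natDegree → ∀ S : Finset ℂ, ↑S ⊆ W →
      K1 L k < S.card → (2 ≤ P.natDegree ∨ ∀ w ∈ S, rv P w ≠ 0) →
      {w | w ∈ W ∧ rv P w = 0}.Finite ∧ {w | w ∈ W ∧ rv P w = 0}.ncard ≤ K2 L k := by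
  classical
  obtain ⟨L₀, hL₀⟩ := relations
  refine ⟨L₀, fun L hL W hW hnc k hk P hP hd hv hu S hSW hS hcase => ?_⟩
  obtain ⟨c, hc, hcS, v, h0, h1, h2⟩ := select (m := 2 * k) hP hd hv hu S hS hcase
  obtain ⟨F, hFc, hF0, hF⟩ := hL₀ L hL W hW hnc k hk c hc (fun i => hSW (hcS i))
  obtain ⟨hYf, hYn⟩ := curve_bound hP hd hc h0 h1 h2 F hF0
    {w | w ∈ W ∧ rv P w = 0 ∧ ∀ i, w ≠ c i} (fun w hw => ⟨hw.2.1, hF w hw.1 hw.2.2⟩)
  have hsub : {w | w ∈ W ∧ rv P w = 0} ⊆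
      (Set.range c) ∪ {w | w ∈ W ∧ rv P w = 0 ∧ ∀ i, w ≠ c i} := by
    intro w hw
    by_cases h : ∃ i, w = c i
    · obtain ⟨i, hi⟩ := h
      exact Or.inl ⟨i, hi.symm⟩
    · push Not at h
      exact Or.inr ⟨hw.1, hw.2, h⟩
  have hrf : (Set.range c).Finite := Set.finite_range c
  have hrn : (Set.range c).ncard ≤ 2 * k := by
    rw [← Set.image_univ]
    refine (Set.ncard_image_le Set.finite_univ).trans ?_
    rw [Set.ncard_univ, Nat.card_eq_fintype_card, Fintype.card_fin]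
  refine ⟨(hrf.union hYf).subset hsub, ?_⟩
  refine (Set.ncard_le_ncard hsub (hrf.union hYf)).trans ((Set.ncard_union_le _ _).trans ?_)
  unfold K2
  refine Nat.add_le_add hrn (hYn.trans ?_)
  exact Nat.mul_le_mul_right _ hFc

private theorem st_dich (T : Set ℂ) (n : ℕ) :
    (T.Finite ∧ T.ncard ≤ n) ∨ ∃ S : Finset ℂ, ↑S ⊆ T ∧ n < S.card := by
  by_cases h : T.Finite
  · by_cases h1 : T.ncard ≤ n
    · exact Or.inl ⟨h, h1⟩
    · refine Or.inr ⟨h.toFinset, by simp, ?_⟩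
      rw [← Set.ncard_eq_toFinset_card T h]
      omega
  · obtain ⟨S, hS, hc⟩ := Set.Infinite.exists_subset_card_eq h (n + 1)
    exact Or.inr ⟨S, hS, by omega⟩

private theorem st_line : LineOrCircle {w : ℂ | ∃ s : ℝ, w = 0 + s * 1} :=
  Or.inl ⟨0, 1, one_ne_zero, rfl⟩

private theorem st_col {W : Set ℂ} (h : Collinear ℝ W) : ∃ Γ, LineOrCircle Γ ∧ W ⊆ Γ := by
  obtain ⟨p, v, hv⟩ := (collinear_iff_exists_forall_eq_smul_vadd W).1 h
  by_cases h0 : v = 0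
  · refine ⟨{w | ∃ s : ℝ, w = p + s * 1}, Or.inl ⟨p, 1, one_ne_zero, rfl⟩, ?_⟩
    intro w hw
    obtain ⟨r, hr⟩ := hv w hw
    refine ⟨0, ?_⟩
    rw [hr, h0]
    simp
  · refine ⟨{w | ∃ s : ℝ, w = p + s * v}, Or.inl ⟨p, v, h0, rfl⟩, ?_⟩
    intro w hw
    obtain ⟨r, hr⟩ := hv w hw
    refine ⟨r, ?_⟩
    rw [hr]
    simp [add_comm]

theorem struct : ∃ L₀ : ℕ, ∀ L ≥ L₀, ∀ W : Set ℂ, DistHt (2 ^ L) W →
    ∃ Γ, LineOrCircle Γ ∧ (W \ Γ).Finite ∧ (W \ Γ).ncard ≤ bd L (2 * Nat.log 2 (40 * L) + 2) := by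
  classical
  obtain ⟨L₁, hL₁⟩ := relations
  obtain ⟨L₂, hL₂⟩ := one_curve
  refine ⟨max L₁ L₂, fun L hL W hW => ?_⟩
  obtain ⟨k, hk⟩ : ∃ k, k = 2 * Nat.log 2 (40 * L) + 2 := ⟨_, rfl⟩
  rw [← hk]
  by_cases hcol : Collinear ℝ W
  · obtain ⟨Γ, hΓ, hWΓ⟩ := st_col hcol
    refine ⟨Γ, hΓ, ?_, ?_⟩
    · rw [Set.sdiff_eq_empty.2 hWΓ]
      exact Set.finite_empty
    · rw [Set.sdiff_eq_empty.2 hWΓ, Set.ncard_empty]
      exact Nat.zero_le _
  rcases st_dich W (K1 L k) with ⟨hWf, hWn⟩ | ⟨S, hSW, hS⟩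
  · refine ⟨_, st_line, hWf.subset Set.sdiff_subset, ?_⟩
    refine (Set.ncard_le_ncard Set.sdiff_subset hWf).trans (hWn.trans ?_)
    unfold bd
    omega
  -- base points
  have hcard : 2 * k ≤ S.card := by
    have : 2 * k ≤ K1 L k := by
      unfold K1
      omega
    omega
  obtain ⟨e⟩ : Nonempty (Fin (2 * k) ↪ S) := by
    apply Function.Embedding.nonempty_of_card_le
    rw [Fintype.card_fin, Fintype.card_coe]
    exact hcard
  let c : Fin (2 * k) → ℂ := fun i => (e i : ℂ)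
  have hc : Function.Injective c := fun i j h => e.injective (Subtype.ext h)
  have hcW : ∀ i, c i ∈ W := fun i => hSW (e i).2
  obtain ⟨F, hFc, hF0, hF⟩ := hL₁ L ((le_max_left _ _).trans hL) W hW hcol k hk c hc hcW
  let N : B := (∏ a ∈ F, NB c a) * ∏ i, qB (c i)
  have hN0 : N ≠ 0 := by
    refine mul_ne_zero ?_ ?_
    · exact Finset.prod_ne_zero_iff.2 fun a ha => NB_ne_zero hc (hF0 a ha)
    · exact Finset.prod_ne_zero_iff.2 fun i _ => qB_ne_zero (c i)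
  have hNd : Deg (d0 L k) N := by
    have h1 := (Deg.prod F (fun a => NB c a) _ (fun a _ => Deg_NB c a)).mul
      (Deg.prod (Finset.univ : Finset (Fin (2 * k))) (fun i => qB (c i)) 1 (fun i _ => Deg_qB (c i)))
    refine h1.mono ?_
    rw [Finset.card_univ, Fintype.card_fin, mul_one]
    unfold d0
    exact Nat.add_le_add_right (Nat.mul_le_mul_right _ hFc) _
  have hNv : ∀ w ∈ W, rv N w = 0 := by
    intro w hw
    show rv ((∏ a ∈ F, NB c a) * ∏ i, qB (c i)) w = 0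
    rw [rv_mul, rv_prod, rv_prod]
    by_cases h : ∃ i, w = c i
    · obtain ⟨i, hi⟩ := h
      have h1 : ∏ j, rv (qB (c j)) w = 0 := by
        refine Finset.prod_eq_zero (Finset.mem_univ i) ?_
        rw [rv_qB, hi]
        simp
      rw [h1, mul_zero]
    · push Not at h
      obtain ⟨a, ha, hsum⟩ := hF w hw h
      rw [Finset.prod_eq_zero ha (rv_NB c a w hsum), zero_mul]
  obtain ⟨Fs, hFsc, hFs, hFsv⟩ := factors hNd hN0
  by_cases hfirst : ∃ Γ, LineOrCircle Γ ∧ (W \ Γ).Finite ∧ (W \ Γ).ncard ≤ K1 L k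
  · obtain ⟨Γ, hΓ, hf, hn⟩ := hfirst
    refine ⟨Γ, hΓ, hf, hn.trans ?_⟩
    unfold bd
    omega
  have claim : ∀ P ∈ Fs, {w | w ∈ W ∧ rv P w = 0}.Finite ∧
      {w | w ∈ W ∧ rv P w = 0}.ncard ≤ K2 L k + 1 := by
    intro P hPF
    obtain ⟨hP, hPd⟩ := hFs P hPF
    have hone := hL₂ L ((le_max_right _ _).trans hL) W hW hcol k hk
    by_cases h1 : P.natDegree = 0 ∨ (Polynomial.Bivariate.swap P).natDegree = 0
    · have h2 : {w | w ∈ W ∧ rv P w = 0}.Subsingleton :=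
        (one_point hP h1).anti fun w hw => hw.2
      refine ⟨h2.finite, ?_⟩
      have h3 : {w | w ∈ W ∧ rv P w = 0}.ncard ≤ 1 := by
        have : Finite ({w | w ∈ W ∧ rv P w = 0} : Set ℂ) := h2.finite.to_subtype
        exact Set.ncard_le_one_iff_subsingleton.2 h2
      omega
    push Not at h1
    obtain ⟨h1a, h1b⟩ := h1
    by_cases h2 : 2 ≤ P.natDegree
    · obtain ⟨q1, q2⟩ := hone P hP hPd (by omega) (by omega) S hSW hS (Or.inl h2)
      exact ⟨q1, by omega⟩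
    by_cases h3 : 2 ≤ (Polynomial.Bivariate.swap P).natDegree
    · obtain ⟨Q, hQ, hQ1, hQ2, hQv⟩ := conj_curve hP
      have hset : {w | w ∈ W ∧ rv Q w = 0} = {w | w ∈ W ∧ rv P w = 0} := by
        ext w
        constructor
        · rintro ⟨hw1, hw2⟩
          exact ⟨hw1, (hQv w).1 hw2⟩
        · rintro ⟨hw1, hw2⟩
          exact ⟨hw1, (hQv w).2 hw2⟩
      have hQd : Deg (d0 L k) Q := ⟨hQ1.le.trans hPd.2, hQ2.le.trans hPd.1⟩
      obtain ⟨q1, q2⟩ := hone Q hQ hQd (by omega) (by omega) S hSW hS (Or.inl (by omega))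
      rw [hset] at q1 q2
      exact ⟨q1, by omega⟩
    obtain ⟨Γ, hΓ, hPΓ⟩ := quadric hP.ne_zero (by omega) (by omega)
    rcases st_dich {w | w ∈ W ∧ rv P w ≠ 0} (K1 L k) with ⟨hTf, hTn⟩ | ⟨S', hS'T, hS'⟩
    · exfalso
      have hsub : W \ Γ ⊆ {w | w ∈ W ∧ rv P w ≠ 0} := by
        rintro w ⟨hw1, hw2⟩
        exact ⟨hw1, fun h => hw2 (hPΓ w h)⟩
      exact hfirst ⟨Γ, hΓ, hTf.subset hsub, (Set.ncard_le_ncard hsub hTf).trans hTn⟩
    · obtain ⟨q1, q2⟩ := hone P hP hPd (by omega) (by omega) S' (fun w hw => (hS'T hw).1) hS'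
        (Or.inr fun w hw => (hS'T hw).2)
      exact ⟨q1, by omega⟩
  have hcov : W ⊆ ⋃ P ∈ Fs, {w | w ∈ W ∧ rv P w = 0} := by
    intro w hw
    obtain ⟨P, hP, hPw⟩ := hFsv w (hNv w hw)
    exact Set.mem_iUnion₂.2 ⟨P, hP, hw, hPw⟩
  have hfin : (⋃ P ∈ Fs, {w | w ∈ W ∧ rv P w = 0}).Finite :=
    Fs.finite_toSet.biUnion fun P hP => (claim P hP).1
  have hWf : W.Finite := hfin.subset hcov
  have hWn : W.ncard ≤ 2 * d0 L k * (K2 L k + 1) := by
    refine (Set.ncard_le_ncard hcov hfin).trans ?_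
    have h1 : (⋃ P ∈ Fs, {w | w ∈ W ∧ rv P w = 0}).ncard ≤
        ∑ P ∈ Fs, {w | w ∈ W ∧ rv P w = 0}.ncard :=
      Finset.set_ncard_biUnion_le Fs fun P => {w | w ∈ W ∧ rv P w = 0}
    refine h1.trans ((Finset.sum_le_card_nsmul _ _ _ fun P hP => (claim P hP).2).trans ?_)
    rw [smul_eq_mul]
    exact Nat.mul_le_mul_right _ hFsc
  refine ⟨_, st_line, hWf.subset Set.sdiff_subset, ?_⟩
  refine (Set.ncard_le_ncard Set.sdiff_subset hWf).trans (hWn.trans ?_)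
  unfold bd
  omega

end Pool.Agent.EUP
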